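import Mathlib

/-!
# TAGBR, module KEYDIV, algebraic part: divisibility by `1 + z` in Laurent polynomial rings
-/

namespace Pool.Agent.Lib.MP_eee7a8_ag.TB.C25

open AddMonoidAlgebra

variable {ι : Type}

/-- Laurent polynomials with complex coefficients. -/
abbrev LC (ι : Type) := AddMonoidAlgebra ℂ (ι → ℤ)

/-- Part of degree `k` in the variable number `i`. -/
noncomputable def proj (i : ι) (k : ℤ) : LC ι →+ LC ι where
  toFun p := ofCoeff (p.coeff.filter (fun m => m i = k))
  map_zero' := by
    apply AddMonoidAlgebra.ext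
    show Finsupp.filter (fun m : ι → ℤ => m i = k) (0 : (ι → ℤ) →₀ ℂ) = 0
    exact Finsupp.filter_zero _
  map_add' p q := by
    apply AddMonoidAlgebra.ext
    simp only [coeff_add, Finsupp.filter_add]

theorem proj_single (i : ι) (k : ℤ) (m : ι → ℤ) (c : ℂ) :
    proj i k (single m c) = if m i = k then single m c else 0 := by
  apply AddMonoidAlgebra.ext
  show (Finsupp.single m c).filter (fun m => m i = k) = _
  split_ifs with h
  · exact Finsupp.filter_single_of_pos (fun m : ι → ℤ => m i = k) h
  · exact Finsupp.filter_single_of_neg (fun m : ι → ℤ => m i = k) h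

theorem proj_coeff (i : ι) (k : ℤ) (p : LC ι) (m : ι → ℤ) :
    (proj i k p).coeff m = if m i = k then p.coeff m else 0 := by
  show (p.coeff.filter (fun m => m i = k)) m = _
  rw [Finsupp.filter_apply]

theorem proj_single_mul (i : ι) (k : ℤ) (m : ι → ℤ) (c : ℂ) (p : LC ι) :
    proj i k (single m c * p) = single m c * proj i (k - m i) p := by
  have : (proj i k).comp (AddMonoidHom.mulLeft (single m c)) =
      (AddMonoidHom.mulLeft (single m c)).comp (proj i (k - m i)) := by
    apply addMonoidHom_ext
    intro n d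
    show proj i k (single m c * single n d) = single m c * proj i (k - m i) (single n d)
    rw [single_mul_single, proj_single, proj_single, Pi.add_apply]
    by_cases h : m i + n i = k
    · rw [if_pos h, if_pos (by omega), single_mul_single]
    · rw [if_neg h, if_neg (by omega), mul_zero]
  exact DFunLike.congr_fun this p

/-- Homogeneous of degree zero in the variable `i`. -/
def H0 (i : ι) (p : LC ι) : Prop := proj i 0 p = p

/-- Degree at most `k` in the variable `i`. -/
def Dle (i : ι) (k : ℤ) (p : LC ι) : Prop := ∀ l : ℤ, k < l → proj i l p = 0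

theorem proj_proj (i : ι) (k l : ℤ) (p : LC ι) :
    proj i k (proj i l p) = if k = l then proj i l p else 0 := by
  ext m
  rw [proj_coeff, proj_coeff]
  split_ifs with h1 h2 h3 h3 h4 <;> simp_all [proj_coeff]

theorem H0.proj' {i : ι} (p : LC ι) : H0 i (proj i 0 p) := by
  unfold H0; rw [proj_proj]; simp

theorem H0.coeff {i : ι} {p : LC ι} (h : H0 i p) {m : ι → ℤ} (hm : m i ≠ 0) : p.coeff m = 0 := by
  rw [← h, proj_coeff, if_neg hm]

/-- Decomposition of the product by the support of the first factor. -/
theorem mul_eq_sum (p q : LC ι) : p * q = p.coeff.sum (fun m c => single m c * q) := by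
  conv_lhs => rw [← sum_coeff_single p]
  rw [Finsupp.sum, Finsupp.sum, Finset.sum_mul]

theorem proj_H0_mul {i : ι} {p : LC ι} (h : H0 i p) (k : ℤ) (q : LC ι) :
    proj i k (p * q) = p * proj i k q := by
  rw [mul_eq_sum, mul_eq_sum, Finsupp.sum, Finsupp.sum, map_sum]
  apply Finset.sum_congr rfl
  intro m hm
  rw [proj_single_mul]
  have : m i = 0 := by
    by_contra hmi
    exact (Finsupp.mem_support_iff.1 hm) (h.coeff hmi)
  rw [this, sub_zero]

theorem H0.mul {i : ι} {p q : LC ι} (hp : H0 i p) (hq : H0 i q) : H0 i (p * q) := by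
  unfold H0; rw [proj_H0_mul hp, hq]

theorem Dle.H0_mul {i : ι} {p q : LC ι} {k : ℤ} (hp : H0 i p) (hq : Dle i k q) :
    Dle i k (p * q) := by
  intro l hl
  rw [proj_H0_mul hp, hq l hl, mul_zero]

theorem Dle.add {i : ι} {p q : LC ι} {k : ℤ} (hp : Dle i k p) (hq : Dle i k q) :
    Dle i k (p + q) := by
  intro l hl
  rw [map_add, hp l hl, hq l hl, add_zero]

theorem Dle.sum {i : ι} {k : ℤ} {α : Type*} (s : Finset α) (f : α → LC ι)
    (h : ∀ a ∈ s, Dle i k (f a)) : Dle i k (∑ a ∈ s, f a) := by
  intro l hl
  rw [map_sum]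
  exact Finset.sum_eq_zero fun a ha => h a ha l hl

theorem Dle.mono {i : ι} {k l : ℤ} {p : LC ι} (h : Dle i k p) (hkl : k ≤ l) : Dle i l p :=
  fun m hm => h m (by omega)

theorem Dle.single_mul {i : ι} {k : ℤ} {p : LC ι} (m : ι → ℤ) (c : ℂ) (h : Dle i k p) :
    Dle i (k + m i) (single m c * p) := by
  intro l hl
  rw [proj_single_mul, h _ (by omega), mul_zero]

theorem H0.Dle {i : ι} {p : LC ι} (h : H0 i p) : Dle i 0 p := by
  intro l hl
  rw [← h, proj_proj, if_neg (by omega)]

/-- Powers of `X + ρ`: the top part. -/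
theorem pow_top {i : ι} {d : ι → ℤ} (hd : d i = 1) {ρ : LC ι} (hρ : H0 i ρ) (N : ℕ) :
    ∃ r : LC ι, (single d 1 + ρ) ^ N = single (N • d) 1 + r ∧ Dle i (N - 1) r := by
  induction N with
  | zero =>
    refine ⟨0, ?_, ?_⟩
    · simp [AddMonoidAlgebra.one_def]
    · intro l _; simp
  | succ N ih =>
    obtain ⟨r, hr, hD⟩ := ih
    refine ⟨ρ * single (N • d) 1 + (single d 1 * r + ρ * r), ?_, ?_⟩
    · have : (single ((N + 1) • d) 1 : LC ι) = single d 1 * single (N • d) 1 := by
        rw [single_mul_single, one_mul, add_smul, one_smul, add_comm]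
      rw [pow_succ', hr, this]
      ring
    · have hN : (N • d) i = N := by simp [hd]
      refine Dle.add ?_ (Dle.add ?_ ?_)
      · refine (Dle.H0_mul hρ ?_).mono (le_refl _)
        intro l hl
        rw [proj_single, if_neg]
        push_cast at hl
        omega
      · have := hD.single_mul d 1
        rw [hd] at this
        refine this.mono ?_
        push_cast; omega
      · refine (Dle.H0_mul hρ hD).mono ?_
        push_cast; omega

/-- Divisibility by `1 + z`. -/
def Dv (z : ι → ℤ) (p : LC ι) : Prop := ∃ s, p = (1 + single z 1) * s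

theorem Dv.add {z : ι → ℤ} {p q : LC ι} (hp : Dv z p) (hq : Dv z q) : Dv z (p + q) := by
  obtain ⟨s, rfl⟩ := hp
  obtain ⟨t, rfl⟩ := hq
  exact ⟨s + t, by ring⟩

theorem Dv.sub {z : ι → ℤ} {p q : LC ι} (hp : Dv z p) (hq : Dv z q) : Dv z (p - q) := by
  obtain ⟨s, rfl⟩ := hp
  obtain ⟨t, rfl⟩ := hq
  exact ⟨s - t, by ring⟩

theorem Dv.mul {z : ι → ℤ} {p : LC ι} (q : LC ι) (hp : Dv z p) : Dv z (q * p) := by
  obtain ⟨s, rfl⟩ := hp
  exact ⟨q * s, by ring⟩

theorem Dv.sum {z : ι → ℤ} {α : Type*} (s : Finset α) (f : α → LC ι)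
    (h : ∀ a ∈ s, Dv z (f a)) : Dv z (∑ a ∈ s, f a) := by
  classical
  induction s using Finset.induction_on with
  | empty => exact ⟨0, by simp⟩
  | insert a s ha ih =>
    rw [Finset.sum_insert ha]
    exact (h a (Finset.mem_insert_self _ _)).add
      (ih fun b hb => h b (Finset.mem_insert_of_mem hb))

theorem Dv.proj {i : ι} {z : ι → ℤ} (hz : z i = 0) {p : LC ι} (hp : Dv z p) (k : ℤ) :
    Dv z (proj i k p) := by
  obtain ⟨s, rfl⟩ := hp
  refine ⟨C25.proj i k s, ?_⟩
  rw [add_mul, one_mul, map_add, proj_single_mul, hz, sub_zero, add_mul, one_mul]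

/-- Key lemma: descending induction on the power of the variable `i`. -/
theorem key {i : ι} {z d : ι → ℤ} (hz : z i = 0) (hd : d i = 1) {ρ : LC ι} (hρ : H0 i ρ)
    (N : ℕ) (h : ℕ → LC ι) (hh : ∀ j < N, H0 i (h j))
    (hS : Dv z (∑ j ∈ Finset.range N, (single d 1 + ρ) ^ j * h j)) : ∀ j < N, Dv z (h j) := by
  induction N with
  | zero => intro j hj; omega
  | succ N ih =>
    have hN : Dv z (h N) := by
      have h1 := hS.proj hz (N : ℤ)
      rw [Finset.sum_range_succ, map_add] at h1
      have h2 : proj i N (∑ j ∈ Finset.range N, (single d 1 + ρ) ^ j * h j) = 0 := by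
        rw [map_sum]
        apply Finset.sum_eq_zero
        intro j hj
        have hjN := Finset.mem_range.1 hj
        obtain ⟨r, hr, hD⟩ := pow_top hd hρ j
        rw [hr, add_mul, map_add, proj_single_mul]
        have hjd : (j • d) i = j := by simp [hd]
        rw [hjd, (hh j (by omega)).Dle _ (by omega), mul_zero, zero_add, mul_comm,
          proj_H0_mul (hh j (by omega)), hD _ (by omega), mul_zero]
      have h3 : proj i N ((single d 1 + ρ) ^ N * h N) = single (N • d) 1 * h N := by
        obtain ⟨r, hr, hD⟩ := pow_top hd hρ N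
        rw [hr, add_mul, map_add, proj_single_mul]
        have hjd : (N • d) i = N := by simp [hd]
        rw [hjd, sub_self, hh N (by omega), mul_comm r, proj_H0_mul (hh N (by omega)),
          hD _ (by omega), mul_zero, add_zero]
      rw [h2, h3, zero_add] at h1
      have h4 := h1.mul (single (-(N • d)) 1)
      rwa [← mul_assoc, single_mul_single, neg_add_cancel, one_mul, ← AddMonoidAlgebra.one_def,
        one_mul] at h4
    intro j hj
    rcases Nat.lt_succ_iff_lt_or_eq.1 hj with h1 | h1
    · refine ih (fun j hj => hh j (by omega)) ?_ j h1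
      have h5 := hS.sub (hN.mul ((single d 1 + ρ) ^ N))
      rwa [Finset.sum_range_succ, add_sub_cancel_right] at h5
    · rw [h1]; exact hN

theorem one_add_mul_coeff (z : ι → ℤ) (s : LC ι) (m : ι → ℤ) :
    ((1 + single z 1) * s).coeff m = s.coeff m + s.coeff (m - z) := by
  have : ∀ s : LC ι, (single z 1 * s).coeff m = s.coeff (m - z) := by
    intro s
    induction s using AddMonoidAlgebra.induction_linear with
    | zero => simp
    | add f g hf hg => rw [mul_add, coeff_add, coeff_add, Finsupp.add_apply, Finsupp.add_apply,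
        hf, hg]
    | single a b =>
      classical
      rw [single_mul_single, one_mul, coeff_single, coeff_single, Finsupp.single_apply,
        Finsupp.single_apply]
      congr 1
      rw [eq_sub_iff_add_eq, add_comm]
  rw [add_mul, one_mul, coeff_add, Finsupp.add_apply, this]

/-- The alternating sums of the coefficients of a multiple of `1 + z` vanish. -/
theorem Dv.alt {z : ι → ℤ} (hz : z ≠ 0) {p : LC ι} (hp : Dv z p) (E : ι → ℤ) :
    ∑ᶠ j : ℤ, (-1 : ℂ) ^ j * p.coeff (E + j • z) = 0 := by
  obtain ⟨s, rfl⟩ := hp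
  obtain ⟨i, hi⟩ : ∃ i, z i ≠ 0 := by
    by_contra h
    push Not at h
    exact hz (funext h)
  have hinj : Function.Injective (fun j : ℤ => E + j • z) := by
    intro j k h
    have := congrFun h i
    simp only [Pi.add_apply, Pi.smul_apply, smul_eq_mul, add_right_inj] at this
    exact mul_right_cancel₀ hi this
  have hfin : (Function.support fun j : ℤ => (-1 : ℂ) ^ j * s.coeff (E + j • z)).Finite := by
    apply Set.Finite.subset (Set.Finite.preimage hinj.injOn s.coeff.hasFiniteSupport)
    intro j hj
    simp only [Function.mem_support, ne_eq, mul_eq_zero, not_or] at hj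
    simpa using hj.2
  have hfin' : (Function.support fun j : ℤ => (-1 : ℂ) ^ j * s.coeff (E + j • z - z)).Finite := by
    have hinj' : Function.Injective (fun j : ℤ => E + j • z - z) := by
      intro j k h
      exact hinj (sub_left_injective h)
    apply Set.Finite.subset (Set.Finite.preimage hinj'.injOn s.coeff.hasFiniteSupport)
    intro j hj
    simp only [Function.mem_support, ne_eq, mul_eq_zero, not_or] at hj
    simpa using hj.2
  have e1 : ∑ᶠ j : ℤ, (-1 : ℂ) ^ j * s.coeff (E + j • z - z) =
      -∑ᶠ j : ℤ, (-1 : ℂ) ^ j * s.coeff (E + j • z) := by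
    rw [← finsum_comp_equiv (Equiv.addRight (1 : ℤ)), ← finsum_neg_distrib]
    apply finsum_congr
    intro j
    rw [Equiv.coe_addRight, zpow_add_one₀ (by norm_num)]
    have : E + (j + 1) • z - z = E + j • z := by rw [add_smul, one_smul]; abel
    rw [this]
    ring
  simp only [one_add_mul_coeff, mul_add]
  rw [finsum_add_distrib hfin hfin', e1, add_neg_cancel]

end Pool.Agent.Lib.MP_eee7a8_ag.TB.C25
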