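import Pool.Agent.Lib.MP_eee7a8_ag.TB.Iface3
import Pool.Agent.Lib.MP_eee7a8_ag.TB.A.Tri
import Pool.Agent.Lib.MP_eee7a8_ag.TB.C25.KdAlg

/-!
# TAGBR, module KEYDIV
-/

namespace Pool.Agent.Lib.MP_eee7a8_ag.TB.C25

open AddMonoidAlgebra

variable {G : Subgroup SLZ} {K : Type} [Field K] [Algebra ℂ K]

theorem ev_single (L : Lam G K) {ι : Type} [Fintype ι] (T : Fam ι) (m : ι → ℤ) (c : ℂ) :
    L.ev T (single m c) = algebraMap ℂ K c * L.mon T m := by
  unfold Lam.ev
  rw [coeff_single, Finsupp.sum_single_index]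
  rw [map_zero, zero_mul]

/-- Evaluation as a ring homomorphism. -/
noncomputable def evH (L : Lam G K) {ι : Type} [Fintype ι] (T : Fam ι) (h : L.IsChart T) :
    LC ι →+* K where
  toFun := L.ev T
  map_one' := h.one
  map_mul' := h.mul
  map_zero' := by unfold Lam.ev; simp
  map_add' := h.add

theorem evH_apply (L : Lam G K) {ι : Type} [Fintype ι] (T : Fam ι) (h : L.IsChart T) (p : LC ι) :
    evH L T h p = L.ev T p := rfl

theorem evH_inj (L : Lam G K) {ι : Type} [Fintype ι] (T : Fam ι) (h : L.IsChart T) :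
    Function.Injective (evH L T h) := h.inj

theorem mon_add (L : Lam G K) {ι : Type} [Fintype ι] (T : Fam ι) (h : L.IsChart T)
    (m n : ι → ℤ) : L.mon T (m + n) = L.mon T m * L.mon T n := by
  have h1 := h.mul (single m 1) (single n 1)
  rw [single_mul_single, ev_single, ev_single, ev_single] at h1
  simpa using h1

theorem mon_ne (L : Lam G K) {ι : Type} [Fintype ι] (T : Fam ι) (h : L.IsChart T)
    (m : ι → ℤ) : L.mon T m ≠ 0 := by
  intro h0
  have h1 := mon_add L T h m (-m)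
  rw [h0, zero_mul, add_neg_cancel] at h1
  have h2 : L.mon T 0 = 1 := by simp [Lam.mon]
  rw [h2] at h1
  exact one_ne_zero h1

theorem lam_ne (L : Lam G K) {ι : Type} [Fintype ι] (T : Fam ι) (h : L.IsChart T) (i : ι) :
    L.lam (T.s i) (T.t i) ≠ 0 := by
  classical
  intro h0
  apply mon_ne L T h (Pi.single i 1)
  unfold Lam.mon
  apply Finset.prod_eq_zero (Finset.mem_univ i)
  rw [h0, Pi.single_eq_same, zpow_one]

theorem lam_same (L : Lam G K) {a b c d : Cusp} (h : SameArc G a b c d) :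
    L.lam a b = L.lam c d := by
  obtain ⟨g, hg, ⟨rfl, rfl⟩ | ⟨rfl, rfl⟩⟩ := h
  · rw [L.inv g hg]
  · rw [L.symm, L.symm (g • b), L.inv g hg, L.symm]

theorem mon_piSingle (L : Lam G K) {ι : Type} [Fintype ι] [DecidableEq ι] (T : Fam ι) (i : ι)
    (k : ℤ) :
    L.mon T (Pi.single i k) = L.lam (T.s i) (T.t i) ^ k := by
  unfold Lam.mon
  rw [Finset.prod_eq_single i]
  · rw [Pi.single_eq_same]
  · intro j _ hj
    rw [Pi.single_eq_of_ne hj, zpow_zero]
  · intro h; exact absurd (Finset.mem_univ i) h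

theorem mon_del (L : Lam G K) {ι : Type} [Fintype ι] {T : Fam ι} (hT : T.IsTri G) {a b : Cusp}
    (h : T.E G a b) : L.mon T (T.del G a b) = L.lam a b := by
  classical
  obtain ⟨i, hi⟩ := h
  rw [Fam.del_of hT hi, mon_piSingle, zpow_one, lam_same L hi]

/-- Monomials without the variable `i` are the same after a flip at `i`. -/
theorem mon_flip (L : Lam G K) {ι : Type} [Fintype ι] (T : Fam ι) (i : ι) (a f : Cusp)
    (m : ι → ℤ) (hm : m i = 0) : L.mon (T.flip i a f) m = L.mon T m := by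
  unfold Lam.mon
  apply Finset.prod_congr rfl
  intro j _
  by_cases hj : j = i
  · subst hj; rw [hm, zpow_zero, zpow_zero]
  · simp [Fam.flip, hj]

open Classical in
theorem mon_split (L : Lam G K) {ι : Type} [Fintype ι] (T : Fam ι) (h : L.IsChart T) (i : ι)
    (m : ι → ℤ) : L.mon T m = L.lam (T.s i) (T.t i) ^ (m i) * L.mon T (m - Pi.single i (m i)) := by
  conv_lhs => rw [show m = Pi.single i (m i) + (m - Pi.single i (m i)) by abel]
  rw [mon_add L T h, mon_piSingle]

/-- Conversion of a Laurent polynomial which is polynomial in the variable `i` to the flipped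
chart. -/
theorem conv (L : Lam G K) {ι : Type} [Fintype ι] (T : Fam ι) (h : L.IsChart T) (i : ι)
    (a f : Cusp) (h' : L.IsChart (T.flip i a f)) {z : ι → ℤ} (U : LC ι) (hU : Dv z U)
    (hUe : L.ev (T.flip i a f) U = L.lam (T.s i) (T.t i)) (p : LC ι)
    (hp : ∀ m ∈ p.coeff.support, 0 ≤ m i) :
    ∃ q : LC ι, L.ev (T.flip i a f) q = L.ev T p ∧ Dv z (q - proj i 0 p) := by
  classical
  set T' := T.flip i a f with hT'
  -- the conversion of a monomial
  have hm : ∀ m ∈ p.coeff.support, ∃ q : LC ι,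
      L.ev T' q = algebraMap ℂ K (p.coeff m) * L.mon T m ∧
      Dv z (q - proj i 0 (single m (p.coeff m))) := by
    intro m hm
    have h0 := hp m hm
    rcases eq_or_lt_of_le h0 with h1 | h1
    · refine ⟨single m (p.coeff m), ?_, ?_⟩
      · rw [ev_single, mon_flip L T i a f m h1.symm]
      · rw [proj_single, if_pos h1.symm, sub_self]
        exact ⟨0, by simp⟩
    · obtain ⟨k, hk⟩ : ∃ k : ℕ, m i = k + 1 := ⟨(m i - 1).toNat, by omega⟩
      refine ⟨single (m - Pi.single i (m i)) (p.coeff m) * U ^ (k + 1), ?_, ?_⟩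
      · have e1 : L.ev T' (U ^ (k + 1)) = L.lam (T.s i) (T.t i) ^ (m i) := by
          rw [← evH_apply L T' h', map_pow, evH_apply, hUe, hk]
          norm_cast
        rw [h'.mul, e1, ev_single, mon_flip L T i a f _ (by simp), mon_split L T h i m]
        ring
      · rw [proj_single, if_neg (by omega), sub_zero, pow_succ, ← mul_assoc]
        exact hU.mul _
  choose! q hq1 hq2 using hm
  refine ⟨∑ m ∈ p.coeff.support, q m, ?_, ?_⟩
  · rw [← evH_apply L T' h', map_sum]
    unfold Lam.ev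
    rw [Finsupp.sum]
    apply Finset.sum_congr rfl
    intro m hm
    rw [evH_apply, hq1 m hm]
  · have e2 : proj i 0 p = ∑ m ∈ p.coeff.support, proj i 0 (single m (p.coeff m)) := by
      rw [← map_sum]
      congr 1
      conv_lhs => rw [← sum_coeff_single p]
      rfl
    rw [e2, ← Finset.sum_sub_distrib]
    exact Dv.sum _ _ hq2

/-- The property `Dv` in sums of products modulo `Dv`. -/
theorem dv_congr {ι : Type} {z : ι → ℤ} (N : ℕ) {V V' : LC ι} (hV : Dv z (V - V'))
    (q q' : ℕ → LC ι) (hq : ∀ j < N, Dv z (q j - q' j))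
    (h : Dv z (∑ j ∈ Finset.range N, V ^ j * q j)) :
    Dv z (∑ j ∈ Finset.range N, V' ^ j * q' j) := by
  have : Dv z (∑ j ∈ Finset.range N, (V ^ j * q j - V' ^ j * q' j)) := by
    apply Dv.sum
    intro j hj
    have e : V ^ j * q j - V' ^ j * q' j = V ^ j * (q j - q' j) + q' j * (V ^ j - V' ^ j) := by
      ring
    rw [e]
    refine ((hq j (Finset.mem_range.1 hj)).mul _).add (Dv.mul _ ?_)
    obtain ⟨c, hc⟩ := sub_dvd_pow_sub_pow V V' j
    rw [hc, mul_comm]
    exact hV.mul c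
  have h2 := h.sub this
  rw [Finset.sum_sub_distrib, sub_sub_cancel] at h2
  exact h2

theorem keydiv (hRe : RepolStatement) (hVc : VcornStatement) (hCh : ChartStatement)
    (hFl : FlipStatement) (hRa : RadiusStatement) : KeydivStatement := by
  classical
  intro G K _ _ L hG u v hAdm n T hGood hz0 w hw N h hh hsum j hj z hz p hp E hE
  have hT := hGood.toIsTri
  have hzne : z ≠ 0 := hz0 z hz
  obtain ⟨x, y, hux, hvx, huy, hvy, hc, hzdef⟩ := hz
  have hGuv : Ge G (some (u, v)) u v := ⟨(u, v), rfl, SameArc.refl _ _⟩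
  have hGvu : Ge G (some (u, v)) v u := ⟨(u, v), rfl, SameArc.rev _ _⟩
  have huv : T.E G u v := hGood.mem _ _ hGuv
  have hxy : Cross x y u v := cross_swap.1 hc
  have hne := hc.ne
  -- the sides are not translates of `e`
  have nux : ¬ Ge G (some (u, v)) u x := by
    rintro ⟨q, hq, hs⟩
    have h1 : Ge G (some (u, v)) x u := ⟨q, hq, hs.trans (SameArc.rev _ _)⟩
    exact hGood.nofold x u v h1 hGuv hne.2.2.2.1.symm hvx.symm
  have nuy : ¬ Ge G (some (u, v)) u y := by
    rintro ⟨q, hq, hs⟩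
    have h1 : Ge G (some (u, v)) y u := ⟨q, hq, hs.trans (SameArc.rev _ _)⟩
    exact hGood.nofold y u v h1 hGuv hne.2.2.2.2.1.symm hvy.symm
  have nvx : ¬ Ge G (some (u, v)) v x := by
    rintro ⟨q, hq, hs⟩
    have h1 : Ge G (some (u, v)) x v := ⟨q, hq, hs.trans (SameArc.rev _ _)⟩
    exact hGood.nofold x v u h1 hGvu hne.2.1.symm hux.symm
  have nvy : ¬ Ge G (some (u, v)) v y := by
    rintro ⟨q, hq, hs⟩
    have h1 : Ge G (some (u, v)) y v := ⟨q, hq, hs.trans (SameArc.rev _ _)⟩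
    exact hGood.nofold y v u h1 hGvu hne.2.2.1.symm huy.symm
  -- the arc `xy` is simple
  have hsim : Simple G x y := by
    by_contra hns
    obtain ⟨g, hg, ⟨h1, h2, -⟩ | ⟨h1, h2, -⟩⟩ := hRa G hG (Fin n) T hT x y u v huv hux.symm
      hvx.symm huy.symm hvy.symm hxy hns
    · exact nux ⟨(u, v), rfl, g, hg, Or.inl ⟨h1, h2⟩⟩
    · exact nvx ⟨(u, v), rfl, g, hg, Or.inr ⟨h2, h1⟩⟩
  -- the index of `uv`
  obtain ⟨i, hi⟩ := huv
  have huv : T.E G u v := ⟨i, hi⟩
  have hGi : Ge G (some (u, v)) (T.s i) (T.t i) := ⟨(u, v), rfl, hi.symm⟩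
  obtain ⟨g, hg, a, f, ha, hf⟩ : ∃ g ∈ G, ∃ a f, g • a = x ∧ g • f = y ∧
      ((g • T.s i = u ∧ g • T.t i = v) ∨ (g • T.s i = v ∧ g • T.t i = u)) := by
    obtain ⟨g, hg, hgi⟩ := hi
    exact ⟨g, hg, g⁻¹ • x, g⁻¹ • y, smul_inv_smul g x, smul_inv_smul g y, hgi⟩
  obtain ⟨hf, hgi⟩ := hf
  have hstep : FlipStep G (fun _ _ => False) T (T.flip i a f) := by
    have k1 : ∀ c d, T.E G (g • c) (g • d) → T.E G c d := fun c d hcd => (Fam.E_smul_iff hg).1 hcd
    refine ⟨i, a, f, fun h => h, ?_, ?_, ?_, ?_, ?_, ?_, rfl⟩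
    · apply k1; rcases hgi with ⟨h1, h2⟩ | ⟨h1, h2⟩ <;> rw [ha, h1]
      · exact hux.symm
      · exact hvx.symm
    · apply k1; rcases hgi with ⟨h1, h2⟩ | ⟨h1, h2⟩ <;> rw [ha, h2]
      · exact hvx.symm
      · exact hux.symm
    · apply k1; rcases hgi with ⟨h1, h2⟩ | ⟨h1, h2⟩ <;> rw [hf, h1]
      · exact huy.symm
      · exact hvy.symm
    · apply k1; rcases hgi with ⟨h1, h2⟩ | ⟨h1, h2⟩ <;> rw [hf, h2]
      · exact hvy.symm
      · exact huy.symm
    · rw [← cross_smul g, ha, hf]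
      rcases hgi with ⟨h1, h2⟩ | ⟨h1, h2⟩ <;> rw [h1, h2]
      · exact hxy
      · exact cross_comm_right.1 hxy
    · have h1 : SameArc G x y a f := ⟨g⁻¹, G.inv_mem hg, Or.inl
        ⟨by rw [← ha, inv_smul_smul], by rw [← hf, inv_smul_smul]⟩⟩
      exact hsim.of_same h1
  have hT' : (T.flip i a f).IsTri G := hFl G hG (Fin n) T _ _ hT hstep
  have hch := hCh G K L hG (Fin n) T hT
  have hch' := hCh G K L hG (Fin n) _ hT'
  set T' := T.flip i a f with hTdef
  have hlami : L.lam (T'.s i) (T'.t i) = L.lam x y := by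
    have : T'.s i = a ∧ T'.t i = f := by simp [hTdef, Fam.flip]
    rw [this.1, this.2, ← ha, ← hf, L.inv g hg]
  have hlamuv : L.lam (T.s i) (T.t i) = L.lam u v := lam_same L hi
  -- exponents
  have hdel0 : ∀ c d, T.E G c d → ¬ Ge G (some (u, v)) c d → T.del G c d i = 0 := by
    rintro c d ⟨k, hk⟩ hn
    have hki : i ≠ k := by
      rintro rfl
      exact hn ⟨(u, v), rfl, hi.symm.trans hk⟩
    rw [Fam.del_of hT hk]
    exact @Pi.single_eq_of_ne (Fin n) (fun _ => ℤ) _ (fun a b => Classical.propDecidable (a = b))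
      _ _ hki 1
  have dux := hdel0 u x hux nux
  have dvx := hdel0 v x hvx nvx
  have duy := hdel0 u y huy nuy
  have dvy := hdel0 v y hvy nvy
  have hzi : z i = 0 := by
    rw [hzdef]; simp only [Pi.sub_apply, Pi.add_apply]; omega
  set δ : Fin n → ℤ := Pi.single i 1 with hδ
  set a1 := T.del G u x + T.del G v y with ha1
  set a2 := T.del G v x + T.del G u y with ha2
  set b := T.del G u x + T.del G u y with hb
  have ha1i : a1 i = 0 := by rw [ha1, Pi.add_apply]; omega
  have ha2i : a2 i = 0 := by rw [ha2, Pi.add_apply]; omega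
  have hbi : b i = 0 := by rw [hb, Pi.add_apply]; omega
  have hza : z = a1 - a2 := by rw [hzdef, ha1, ha2]; abel
  have hmonδ : L.mon T' δ = L.lam x y := by
    rw [hδ, mon_piSingle, zpow_one, hlami]
  have hlxy : L.lam x y ≠ 0 := by rw [← hmonδ]; exact mon_ne L T' hch' _
  have hlux : L.lam u x ≠ 0 := by rw [← mon_del L hT hux]; exact mon_ne L T hch _
  have hluy : L.lam u y ≠ 0 := by rw [← mon_del L hT huy]; exact mon_ne L T hch _
  have hmsub : ∀ m : Fin n → ℤ, L.mon T' (m - δ) * L.lam x y = L.mon T' m := by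
    intro m
    rw [← hmonδ, ← mon_add L T' hch', sub_add_cancel]
  have hmneg : ∀ m m' : Fin n → ℤ, L.mon T' (m - m') * L.mon T' m' = L.mon T' m := by
    intro m m'
    rw [← mon_add L T' hch', sub_add_cancel]
  -- the element `U`
  set U : LC (Fin n) := single (a2 - δ) 1 * (1 + single z 1) with hU
  have hUdv : Dv z U := ⟨single (a2 - δ) 1, by rw [hU]; ring⟩
  have hUev : L.ev T' U = L.lam (T.s i) (T.t i) := by
    have e1 : U = single (a2 - δ) 1 + single (a1 - δ) 1 := by
      rw [hU, mul_add, mul_one, single_mul_single, one_mul, hza]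
      congr 2
      abel
    rw [e1, hch'.add, ev_single, ev_single, map_one, one_mul, one_mul, hlamuv]
    apply mul_right_cancel₀ hlxy
    rw [add_mul, hmsub, hmsub, mon_flip L T i a f _ ha1i, mon_flip L T i a f _ ha2i, ha1, ha2,
      mon_add L T hch, mon_add L T hch, mon_del L hT hux, mon_del L hT hvx, mon_del L hT huy,
      mon_del L hT hvy, L.ptolemy u v x y hc]
    ring
  -- the elements `h j`
  have hconv : ∀ c : K, c ∈ L.RR (Ge G (some (u, v))) → ∃ p q : LC (Fin n), L.ev T p = c ∧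
      L.ev T' q = c ∧ Dv z (q - proj i 0 p) := by
    intro c hc
    obtain ⟨p, hp1, hp2⟩ := hRe G K L hG _ hAdm (Fin n) T hGood c hc
    obtain ⟨q, hq1, hq2⟩ := conv L T hch i a f hch' U hUdv hUev p
      (fun m hm => hp2 m hm i hGi)
    exact ⟨p, q, hp1, hq1.trans hp1, hq2⟩
  choose P Q hP hQ hPQ using fun j => hconv (h j) (hh j)
  -- the element `v u`
  obtain ⟨γ, hγ, -, hNC, hvu⟩ := hVc G K L hG u v hAdm (Fin n) T hGood x y hux hvx huy hvy hc
  obtain ⟨r, r', hr, hr', hrr⟩ := hconv (L.lam x (γ • y))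
    (Algebra.subset_adjoin (Or.inl ⟨x, γ • y, hNC, rfl⟩))
  set V : LC (Fin n) := single (δ - b) 1 + single (-b) 1 * r' with hV
  have hVev : L.ev T' V = L.v u := by
    have hmb : L.mon T' b = L.lam u x * L.lam u y := by
      rw [mon_flip L T i a f _ hbi, hb, mon_add L T hch, mon_del L hT hux, mon_del L hT huy]
    have h1 : L.mon T' (δ - b) = L.lam x y / (L.lam u x * L.lam u y) := by
      rw [eq_div_iff (mul_ne_zero hlux hluy), ← hmb, hmneg, hmonδ]
    have h2 : L.mon T' (-b) = 1 / (L.lam u x * L.lam u y) := by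
      rw [eq_div_iff (mul_ne_zero hlux hluy), ← hmb, ← mon_add L T' hch', neg_add_cancel]
      simp [Lam.mon]
    rw [hV, hch'.add, hch'.mul, ev_single, ev_single, map_one, one_mul, one_mul, hr', h1, h2, hvu]
    ring
  obtain ⟨X, hX⟩ := hw n T' hT'
  have hsum' : U * X = ∑ j ∈ Finset.range N, V ^ j * Q j := by
    apply evH_inj L T' hch'
    rw [map_mul, map_sum]
    simp only [map_mul, map_pow, evH_apply]
    rw [hUev, hX, hlamuv, hsum, hVev]
    apply Finset.sum_congr rfl
    intro j _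
    rw [hQ]
  have hD1 : Dv z (∑ j ∈ Finset.range N, V ^ j * Q j) := by
    rw [← hsum', mul_comm]
    exact hUdv.mul X
  have hD2 : Dv z (∑ j ∈ Finset.range N,
      (single (δ - b) 1 + single (-b) 1 * proj i 0 r) ^ j * proj i 0 (P j)) := by
    refine dv_congr N ?_ Q _ (fun j _ => hPQ j) hD1
    have : V - (single (δ - b) 1 + single (-b) 1 * proj i 0 r) =
        single (-b) 1 * (r' - proj i 0 r) := by rw [hV]; ring
    rw [this]
    exact hrr.mul _
  have hρ : H0 i (single (-b) 1 * proj i 0 r : LC (Fin n)) := by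
    refine H0.mul ?_ (H0.proj' r)
    unfold H0
    rw [proj_single, if_pos]
    simp [hbi]
  have hd : (δ - b) i = 1 := by simp [hδ, hbi]
  have hfin := key hzi hd hρ N (fun j => proj i 0 (P j)) (fun j _ => H0.proj' _) hD2 j hj
  have hpP : p = P j := hch.inj (by rw [hp, hP])
  have halt := hfin.alt hzne E
  have hEi : E i = 0 := hE i hGi
  rw [← halt, hpP]
  apply finsum_congr
  intro k
  rw [proj_coeff, if_pos]
  simp [hEi, hzi]

end Pool.Agent.Lib.MP_eee7a8_ag.TB.C25
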