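import Pool.Agent.Lib.MP_eee7a8_ag.TB.C25.Keydiv
import Pool.Agent.Lib.MP_eee7a8_ag.TB.C34.Linsys

/-!
# TAGBR, module LEM52
-/

namespace Pool.Agent.Lib.MP_eee7a8_ag.TB.C25

open C34 (toC toC_coeff evN_eq ev_prod_arcs ev_prod_loops)

/-! ## The functional `φ` -/

section phi

variable {ι : Type}

/-- The alternating sum of the coefficients at `E + j z`. -/
noncomputable def phi (z E : ι → ℤ) (p : LC ι) : ℂ := ∑ᶠ j : ℤ, (-1 : ℂ) ^ j * p.coeff (E + j • z)

theorem phi_inj {z : ι → ℤ} (hz : z ≠ 0) (E : ι → ℤ) :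
    Function.Injective (fun j : ℤ => E + j • z) := by
  obtain ⟨i, hi⟩ : ∃ i, z i ≠ 0 := by
    by_contra h
    push Not at h
    exact hz (funext h)
  intro j k h
  have := congrFun h i
  simp only [Pi.add_apply, Pi.smul_apply, smul_eq_mul, add_right_inj] at this
  exact mul_right_cancel₀ hi this

theorem phi_fin {z : ι → ℤ} (hz : z ≠ 0) (E : ι → ℤ) (p : LC ι) :
    (Function.support fun j : ℤ => (-1 : ℂ) ^ j * p.coeff (E + j • z)).Finite := by
  apply Set.Finite.subset (Set.Finite.preimage (phi_inj hz E).injOn p.coeff.hasFiniteSupport)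
  intro j hj
  simp only [Function.mem_support, ne_eq, mul_eq_zero, not_or] at hj
  simpa using hj.2

theorem phi_add {z : ι → ℤ} (hz : z ≠ 0) (E : ι → ℤ) (p q : LC ι) :
    phi z E (p + q) = phi z E p + phi z E q := by
  unfold phi
  rw [← finsum_add_distrib (phi_fin hz E p) (phi_fin hz E q)]
  apply finsum_congr
  intro j
  rw [AddMonoidAlgebra.coeff_add, Finsupp.add_apply]; ring

theorem phi_smul (z E : ι → ℤ) (c : ℂ) (p : LC ι) : phi z E (c • p) = c * phi z E p := by
  unfold phi
  rw [← smul_eq_mul, smul_finsum]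
  apply finsum_congr
  intro j
  rw [AddMonoidAlgebra.coeff_smul, Finsupp.smul_apply, smul_eq_mul, smul_eq_mul]; ring

theorem phi_zero (z E : ι → ℤ) : phi z E 0 = 0 := by
  unfold phi; simp

theorem phi_sum {z : ι → ℤ} (hz : z ≠ 0) (E : ι → ℤ) {α : Type*} (s : Finset α) (f : α → LC ι) :
    phi z E (∑ a ∈ s, f a) = ∑ a ∈ s, phi z E (f a) := by
  classical
  induction s using Finset.induction_on with
  | empty => simp [phi_zero]
  | insert a s ha ih => rw [Finset.sum_insert ha, Finset.sum_insert ha, phi_add hz, ih]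

/-- Value on a polynomial with a single coefficient on the line. -/
theorem phi_single {z : ι → ℤ} (E : ι → ℤ) (p : LC ι) (j₀ : ℤ)
    (h : ∀ j : ℤ, p.coeff (E + j • z) = if j = j₀ then 1 else 0) : phi z E p = (-1) ^ j₀ := by
  unfold phi
  rw [finsum_eq_single _ j₀]
  · rw [h, if_pos rfl, mul_one]
  · intro j hj
    rw [h, if_neg hj, mul_zero]

theorem phi_none {z : ι → ℤ} (E : ι → ℤ) (p : LC ι)
    (h : ∀ j : ℤ, p.coeff (E + j • z) = 0) : phi z E p = 0 := by
  unfold phi
  apply finsum_eq_zero_of_forall_eq_zero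
  intro j
  rw [h, mul_zero]

end phi

variable {G : Subgroup SLZ} {K : Type} [Field K] [Algebra ℂ K]

theorem ev_smul' (L : Lam G K) {ι : Type} [Fintype ι] {T : Fam ι} (hc : L.IsChart T) (c : ℂ)
    (p : LC ι) : L.ev T (c • p) = algebraMap ℂ K c * L.ev T p := by
  have : c • p = AddMonoidAlgebra.single 0 c * p := by
    have h : (AddMonoidAlgebra.single 0 c : LC ι) = c • 1 := by
      rw [AddMonoidAlgebra.one_def, AddMonoidAlgebra.smul_single, smul_eq_mul, mul_one]
    rw [h, smul_mul_assoc, one_mul]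
  rw [this, C34.ev_smul hc]

/-- Polynomials of systems. -/
theorem exists_sysP (hTp : TrPolStatement) (hTr : TraceStatement) (hG : IsSurface G)
    (L : Lam G K) {ι : Type} [Fintype ι] {T : Fam ι} (hT : T.IsTri G) (hc : L.IsChart T)
    {P : Cusp → Cusp → LP ι} (hP1 : IsPol G T P) (hP2 : ∀ a b, L.evN T (P a b) = L.lam a b)
    (γ : Sys G) : ∃ p : LP ι, IsSysP G T P γ p ∧ L.ev T (toC ι p) = L.IS γ := by
  obtain ⟨q, hq1, hq2⟩ := ev_prod_loops hc P
    (fun h hh h2 k hk => (hTp G K L hG ι T hT P hP1 hP2 h hh h2 k hk).2)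
    (fun h hh h2 k hk => (hTr G K L hG h hh h2).2.2.1 k hk) γ.loops γ.loop
  refine ⟨(γ.arcs.map (fun a => P a.1 a.2)).prod * q.prod, ⟨q, hq1, rfl⟩, ?_⟩
  rw [map_mul, hc.mul, ev_prod_arcs hc P hP2, hq2]
  rfl

/-- Membership in `R_e`. -/
theorem lam_mem_RR (L : Lam G K) (e : Option (Cusp × Cusp)) {a b : Cusp} (h : NC G e a b) :
    L.lam a b ∈ L.RR (Ge G e) := Algebra.subset_adjoin (Or.inl ⟨a, b, h, rfl⟩)

theorem tk_mem {A : Subalgebra ℂ K} {t : K} (h : t ∈ A) (k : ℕ) : tk t k ∈ A := by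
  have : ∀ k, tk t k ∈ A ∧ tk t (k + 1) ∈ A := by
    intro k
    induction k with
    | zero =>
      refine ⟨?_, h⟩
      show (2 : K) ∈ A
      exact A.natCast_mem 2
    | succ k ih => exact ⟨ih.2, A.sub_mem (A.mul_mem h ih.2) ih.1⟩
  exact (this k).1

theorem loops_mem_RR (L : Lam G K) (e : Option (Cusp × Cusp)) (l : List (SLZ × ℕ))
    (hl : ∀ x ∈ l, IsLoop G x.1 ∧ NCL G e x.1) :
    (l.map (fun l => tk (L.tr l.1) l.2)).prod ∈ L.RR (Ge G e) := by
  apply Subalgebra.list_prod_mem
  intro x hx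
  obtain ⟨y, hy, rfl⟩ := List.mem_map.1 hx
  have h1 : L.tr y.1 ∈ L.RR (Ge G e) := Algebra.subset_adjoin (Or.inr ⟨y.1, (hl y hy).1.mem,
    (hl y hy).1.hyp, (hl y hy).2, rfl⟩)
  exact tk_mem h1 _

theorem arcs_mem_RR (L : Lam G K) (e : Option (Cusp × Cusp)) (l : List (Cusp × Cusp))
    (hl : ∀ x ∈ l, NC G e x.1 x.2) :
    (l.map (fun p => L.lam p.1 p.2)).prod ∈ L.RR (Ge G e) := by
  apply Subalgebra.list_prod_mem
  intro x hx
  obtain ⟨y, hy, rfl⟩ := List.mem_map.1 hx
  exact lam_mem_RR L e (hl y hy)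

theorem IS_mem_RR (L : Lam G K) (e : Option (Cusp × Cusp)) {β : Sys G} (h : SysN G e β) :
    L.IS β ∈ L.RR (Ge G e) :=
  (L.RR (Ge G e)).mul_mem (arcs_mem_RR L e _ h.nc)
    (loops_mem_RR L e _ fun x hx => ⟨(β.loop x hx).1, h.ncl x hx⟩)

theorem RR_le_RA (L : Lam G K) (F : Cusp → Cusp → Prop) : L.RR F ≤ L.RA := by
  apply Algebra.adjoin_mono
  rintro x (⟨a, b, -, rfl⟩ | ⟨g, h1, h2, -, rfl⟩)
  · exact Or.inl ⟨a, b, fun _ _ h => absurd h id, rfl⟩
  · exact Or.inr ⟨g, h1, h2, fun _ _ h => absurd h id, rfl⟩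

/-- Systems containing `e`: the function is divisible by `lam e` in `R_e`. -/
theorem con_factor (L : Lam G K) {u v : Cusp} {β : Sys G} (h : SysN G (some (u, v)) β)
    {p : Cusp × Cusp} (hp : p ∈ β.arcs) (hGe : Ge G (some (u, v)) p.1 p.2) :
    ∃ x ∈ L.RR (Ge G (some (u, v))), L.IS β = L.lam u v * x := by
  obtain ⟨q, hq, hs⟩ := hGe
  cases hq
  obtain ⟨l1, l2, hl⟩ := List.append_of_mem hp
  refine ⟨((l1 ++ l2).map (fun p => L.lam p.1 p.2)).prod *
    (β.loops.map (fun l => tk (L.tr l.1) l.2)).prod, ?_, ?_⟩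
  · exact Subalgebra.mul_mem _
      (arcs_mem_RR L _ _ fun x hx => h.nc x (by
        rw [hl]
        rcases List.mem_append.1 hx with h1 | h1
        · exact List.mem_append_left _ h1
        · exact List.mem_append_right _ (List.mem_cons_of_mem _ h1)))
      (loops_mem_RR L _ _ fun x hx => ⟨(β.loop x hx).1, h.ncl x hx⟩)
  · unfold Lam.IS
    have hs' : L.lam u v = L.lam p.1 p.2 := lam_same L hs
    rw [hl, hs', List.map_append, List.map_append, List.prod_append, List.prod_append,
      List.map_cons, List.prod_cons]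
    ring

/-- Coefficients at exponents without `e` of multiples of `lam e` vanish. -/
theorem phi_con (hRe : RepolStatement) (hCh : ChartStatement) (hG : IsSurface G) (L : Lam G K)
    {u v : Cusp} (hAdm : Adm G (some (u, v))) {n : ℕ} {T : Fam (Fin n)}
    (hT : Good G (some (u, v)) T) {z E : Fin n → ℤ} (hz : Rz G (some (u, v)) T z)
    (hE : Rz G (some (u, v)) T E) {x : K} (hx : x ∈ L.RR (Ge G (some (u, v)))) (p : LC (Fin n))
    (hp : L.ev T p = L.lam u v * x) : phi z E p = 0 := by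
  have hc := hCh G K L hG (Fin n) T hT.toIsTri
  have hGuv : Ge G (some (u, v)) u v := ⟨(u, v), rfl, SameArc.refl _ _⟩
  have huv : T.E G u v := hT.mem _ _ hGuv
  obtain ⟨q, hq1, hq2⟩ := hRe G K L hG _ hAdm (Fin n) T hT x hx
  obtain ⟨i, hi⟩ := id huv
  have hGi : Ge G (some (u, v)) (T.s i) (T.t i) := ⟨(u, v), rfl, hi.symm⟩
  have hpq : p = AddMonoidAlgebra.single (T.del G u v) 1 * q := by
    apply hc.inj
    rw [hp, hc.mul, hq1, ev_single, mon_del L hT.toIsTri huv, map_one, one_mul]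
  have hdi : T.del G u v i = 1 := by
    rw [Fam.del_of hT.toIsTri hi]
    exact @Pi.single_eq_same (Fin n) (fun _ => ℤ) _ (fun a b => Classical.propDecidable (a = b))
      _ _
  apply phi_none
  intro j
  have h1 : proj i 0 p = 0 := by
    rw [hpq, proj_single_mul, hdi]
    have h2 : proj i (0 - 1) q = 0 := by
      apply AddMonoidAlgebra.ext
      ext m
      rw [proj_coeff]
      split_ifs with h3
      · by_contra h4
        have := hq2 m (Finsupp.mem_support_iff.2 h4) i hGi
        omega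
      · rfl
    rw [h2, mul_zero]
  have h3 : (E + j • z) i = 0 := by
    simp [hE i hGi, hz i hGi]
  have h4 := proj_coeff i 0 p (E + j • z)
  rw [h1, if_pos h3] at h4
  simpa using h4.symm

theorem lem52 (hSK : SkStatement) (hSim : SimarcStatement) (hPP : PPStatement)
    (hSL : SlStatement) (hKe : Kerl0Statement) (hKd : KeydivStatement) (hRup : RupStatement)
    (hPol : PolStatement) (hTp : TrPolStatement) (hCh : ChartStatement) (hRe : RepolStatement) (hSe : SleqStatement)
    (hTr : TraceStatement) : Lem52Statement := by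
  classical
  intro G K _ _ L hG u v hAdm hz0 r δ hr hδ hu hv hDiv
  obtain ⟨N, c, g, hg⟩ := Submodule.mem_span_set'.1 (hSK G K L hG _ hAdm r δ hr hδ)
  choose β hβN hβd hβI using fun i => (g i).2
  have hr0 : r = ∑ i, algebraMap ℂ K (c i) * L.IS (β i) := by
    rw [← hg]
    apply Finset.sum_congr rfl
    intro i _
    rw [← hβI i, Algebra.smul_def]
  -- systems containing `e`
  let Con : Fin N → Prop := fun i => ∃ p ∈ (β i).arcs, Ge G (some (u, v)) p.1 p.2
  have hNC : ∀ i, ¬ Con i → SysE G (some (u, v)) (β i) := by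
    intro i hi
    refine hSim G hG u v hAdm (β i) (hβN i) (fun p hp hGe => hi ⟨p, hp, hGe⟩) ?_ ?_
    · rw [hβd]; exact hu
    · rw [hβd]; exact hv
  have hTouch : ∀ i, Touch G (some (u, v)) (β i) := by
    intro i p hp
    cases hp
    -- degree at `u` is positive
    have h1 : 1 ≤ (β i).deg u := by rw [hβd]; exact hu
    by_contra hn
    push Not at hn
    have h2 : (β i).deg u = 0 := by
      unfold Sys.deg
      have : ∀ l : List (Cusp × Cusp), (∀ q ∈ l, ∀ g ∈ G, g • u ≠ q.1 ∧ g • u ≠ q.2) →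
          (l.map (fun p => ends G p.1 p.2)).sum u = 0 := by
        intro l
        induction l with
        | nil => intro _; simp
        | cons q l ih =>
          intro hl
          rw [List.map_cons, List.sum_cons, Pi.add_apply,
            ih fun q hq => hl q (List.mem_cons_of_mem _ hq), add_zero]
          unfold ends
          rw [if_neg, if_neg, add_zero]
          · rintro ⟨g, hg, h⟩; exact (hl q List.mem_cons_self g hg).2 h
          · rintro ⟨g, hg, h⟩; exact (hl q List.mem_cons_self g hg).1 h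
      exact this _ fun q hq g hg => ⟨(hn q hq g hg).1, (hn q hq g hg).2.1⟩
    omega
  obtain ⟨-, hrefl, hsymm, htrans⟩ := hSe G K L hG
  -- sliding
  have hslide : ∀ i k, Slide G (some (u, v)) (β i) (β k) → ∃ s : ℤ, (s = 1 ∨ s = -1) ∧
      ∃ x ∈ L.RA, L.IS (β i) = s * L.IS (β k) + L.lam u v * x := by
    intro i k hik
    refine hSL G K L hG u v hAdm (β k) (β i) (hsymm _ _ _ hik) ?_ ?_ ?_
    · rw [hβd, hβd]
    · rw [hβd]; exact hu
    · rw [hβd]; exact hv
  choose! s hs x hx hsx using hslide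
  -- the key claim
  have key : ∀ k, ¬ Con k → ∑ i ∈ Finset.univ.filter
      (fun i => ¬ Con i ∧ Slide G (some (u, v)) (β i) (β k)), c i * (s i k : ℂ) = 0 := by
    intro k hk
    let B : List (Sys G) := ((Finset.univ.filter (fun i => ¬ Con i)).toList).map β
    have hBmem : ∀ i, ¬ Con i → β i ∈ B := by
      intro i hi
      refine List.mem_map.2 ⟨i, ?_, rfl⟩
      simp [hi]
    obtain ⟨n, T, E, hT, hE, hB⟩ := hPP G hG _ hAdm B (by
      intro γ hγ
      obtain ⟨i, hi, rfl⟩ := List.mem_map.1 hγ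
      have hi' : ¬ Con i := by simpa using hi
      exact ⟨hNC i hi', hTouch i⟩) (β k) (hBmem k hk)
    have hTri := hT.toIsTri
    have hc := hCh G K L hG (Fin n) T hTri
    obtain ⟨P, hP1, hP2⟩ := hPol G K L hG (Fin n) T hTri
    obtain ⟨⟨z, hz⟩, hzall⟩ := hKe G hG u v hAdm (Fin n) T hT
    obtain ⟨hzK, hzR, -, -, hzgen⟩ := hzall z hz
    have hzne : z ≠ 0 := hz0 n T hT z hz
    choose p hp1 hp2 using fun i => exists_sysP hTp hTr hG L hTri hc hP1 hP2 (β i)
    -- values of `φ`
    have hφcon : ∀ i, Con i → phi z E (toC (Fin n) (p i)) = 0 := by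
      rintro i ⟨q, hq, hGe⟩
      obtain ⟨y, hy, hIS⟩ := con_factor L (hβN i) hq hGe
      exact phi_con hRe hCh hG L hAdm hT hzR hE hy _ (by rw [hp2, hIS])
    have hφno : ∀ i, ¬ Con i → ¬ Slide G (some (u, v)) (β i) (β k) →
        phi z E (toC (Fin n) (p i)) = 0 := by
      intro i hi hsl
      apply phi_none
      intro j
      rw [toC_coeff]
      by_contra hne
      exact hsl ((hB P hP1 (β i) (hBmem i hi) (p i) (hp1 i)).1 (j • z)
        (AddSubgroup.zsmul_mem _ hzK j) (fun h => hne (by rw [h, Nat.cast_zero])))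
    have hφk : phi z E (toC (Fin n) (p k)) = 1 := by
      have := phi_single E (toC (Fin n) (p k)) 0 (z := z) (by
        intro j
        rw [toC_coeff, (hB P hP1 (β k) (hBmem k hk) (p k) (hp1 k)).2 rfl (j • z)
          (AddSubgroup.zsmul_mem _ hzK j)]
        by_cases hj : j = 0
        · rw [hj, zero_smul, if_pos rfl, if_pos rfl, Nat.cast_one]
        · have h1 : j • z ≠ 0 := by
            rw [smul_ne_zero_iff]; exact ⟨hj, hzne⟩
          rw [if_neg h1, if_neg hj, Nat.cast_zero])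
      simpa using this
    have hφs : ∀ i, ¬ Con i → Slide G (some (u, v)) (β i) (β k) →
        phi z E (toC (Fin n) (p i)) = (s i k : ℂ) := by
      intro i hi hsl
      -- by `KEYDIV` the difference is divisible
      have hd : L.Div u v T (L.IS (β i) - s i k * L.IS (β k)) := by
        refine hKd G K L hG u v hAdm n T hT (fun z' hz' => hz0 n T hT z' hz') (x i k)
          (hRup G K L hG _ (hx i k hsl)) 1 (fun _ => L.IS (β i) - s i k * L.IS (β k)) ?_ ?_ 0
          one_pos
        · intro _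
          refine Subalgebra.sub_mem _ (IS_mem_RR L _ (hβN i)) (Subalgebra.mul_mem _ ?_
            (IS_mem_RR L _ (hβN k)))
          exact (L.RR (Ge G (some (u, v)))).intCast_mem _
        · rw [Finset.sum_range_one, pow_zero, one_mul, hsx i k hsl]
          ring
      have h1 := hd z hz (toC (Fin n) (p i) + (-(s i k : ℂ)) • toC (Fin n) (p k)) (by
        rw [hc.add, ev_smul' L hc, hp2, hp2, map_neg, map_intCast]
        ring) E hE
      change phi z E (toC (Fin n) (p i) + (-(s i k : ℂ)) • toC (Fin n) (p k)) = 0 at h1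
      rw [phi_add hzne, phi_smul, hφk, mul_one] at h1
      linear_combination h1
    -- the divisibility of `r`
    have hR := hDiv n T hT z hz (∑ i, c i • toC (Fin n) (p i)) (by
      rw [hr0, ← evH_apply L T hc, map_sum]
      apply Finset.sum_congr rfl
      intro i _
      rw [evH_apply, ev_smul' L hc, hp2]) E hE
    change phi z E (∑ i, c i • toC (Fin n) (p i)) = 0 at hR
    rw [phi_sum hzne] at hR
    rw [← hR, ← Finset.sum_filter_add_sum_filter_not Finset.univ
      (fun i => ¬ Con i ∧ Slide G (some (u, v)) (β i) (β k)) (fun i => phi z E _)]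
    have h0 : ∑ i ∈ Finset.univ.filter
        (fun i => ¬ (¬ Con i ∧ Slide G (some (u, v)) (β i) (β k))),
        phi z E (c i • toC (Fin n) (p i)) = 0 := by
      apply Finset.sum_eq_zero
      intro i hi
      rw [phi_smul]
      have hi' := (Finset.mem_filter.1 hi).2
      by_cases hcon : Con i
      · rw [hφcon i hcon, mul_zero]
      · rw [hφno i hcon (fun h => hi' ⟨hcon, h⟩), mul_zero]
    rw [h0, add_zero]
    apply Finset.sum_congr rfl
    intro i hi
    have hi' := (Finset.mem_filter.1 hi).2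
    rw [phi_smul, hφs i hi'.1 hi'.2]
  -- assembly
  let st : Setoid (Fin N) := ⟨fun i k => (Con i ∧ Con k) ∨ (¬ Con i ∧ ¬ Con k ∧
      Slide G (some (u, v)) (β i) (β k)), by
    refine ⟨fun i => ?_, ?_, ?_⟩
    · by_cases h : Con i
      · exact Or.inl ⟨h, h⟩
      · exact Or.inr ⟨h, h, hrefl _ _⟩
    · rintro i k (⟨h1, h2⟩ | ⟨h1, h2, h3⟩)
      · exact Or.inl ⟨h2, h1⟩
      · exact Or.inr ⟨h2, h1, hsymm _ _ _ h3⟩
    · rintro i k l (⟨h1, h2⟩ | ⟨h1, h2, h3⟩) (⟨h4, h5⟩ | ⟨h4, h5, h6⟩)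
      · exact Or.inl ⟨h1, h5⟩
      · exact absurd h2 h4
      · exact absurd h4 h2
      · exact Or.inr ⟨h1, h5, htrans _ _ _ _ h3 h6⟩⟩
  let rep : Fin N → Fin N := fun i => (⟦i⟧ : Quotient st).out
  have hrep : ∀ i, ¬ Con i → ¬ Con (rep i) ∧ Slide G (some (u, v)) (β i) (β (rep i)) := by
    intro i hi
    have h1 : st.r (rep i) i := Quotient.mk_out (s := st) i
    rcases h1 with ⟨-, h1⟩ | ⟨h1, -, h2⟩
    · exact absurd h1 hi
    · exact ⟨h1, hsymm _ _ _ h2⟩
  have hrep2 : ∀ i k, st.r i k → rep i = rep k := by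
    intro i k h
    have : (⟦i⟧ : Quotient st) = ⟦k⟧ := Quotient.sound h
    show (⟦i⟧ : Quotient st).out = (⟦k⟧ : Quotient st).out
    rw [this]
  have hcon : ∀ i, Con i → ∃ y ∈ L.RA, L.IS (β i) = L.lam u v * y := by
    rintro i ⟨q, hq, hGe⟩
    obtain ⟨y, hy, hIS⟩ := con_factor L (hβN i) hq hGe
    exact ⟨y, RR_le_RA L _ hy, hIS⟩
  choose! y hy hIS using hcon
  -- the sum of the main terms vanishes
  have hmain : ∑ i ∈ Finset.univ.filter (fun i => ¬ Con i),
      algebraMap ℂ K (c i * (s i (rep i) : ℂ)) * L.IS (β (rep i)) = 0 := by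
    rw [← Finset.sum_fiberwise_of_maps_to (g := rep) (t := (Finset.univ.filter
      (fun i => ¬ Con i)).image rep) (fun i hi => Finset.mem_image_of_mem rep hi)]
    apply Finset.sum_eq_zero
    intro k hk
    obtain ⟨i₀, hi₀, rfl⟩ := Finset.mem_image.1 hk
    have hi₀' : ¬ Con i₀ := (Finset.mem_filter.1 hi₀).2
    obtain ⟨h1, h2⟩ := hrep i₀ hi₀'
    have h3 : (Finset.univ.filter (fun i => ¬ Con i)).filter (fun i => rep i = rep i₀) =
        Finset.univ.filter (fun i => ¬ Con i ∧ Slide G (some (u, v)) (β i) (β (rep i₀))) := by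
      ext i
      simp only [Finset.mem_filter, Finset.mem_univ, true_and]
      constructor
      · rintro ⟨h4, h5⟩
        refine ⟨h4, ?_⟩
        rw [← h5]; exact (hrep i h4).2
      · rintro ⟨h4, h5⟩
        refine ⟨h4, ?_⟩
        apply hrep2
        exact Or.inr ⟨h4, hi₀', htrans _ _ _ _ h5 (hsymm _ _ _ h2)⟩
    rw [h3]
    have h4 := key (rep i₀) h1
    calc ∑ i ∈ Finset.univ.filter (fun i => ¬ Con i ∧
          Slide G (some (u, v)) (β i) (β (rep i₀))),
          algebraMap ℂ K (c i * (s i (rep i) : ℂ)) * L.IS (β (rep i))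
        = ∑ i ∈ Finset.univ.filter (fun i => ¬ Con i ∧
          Slide G (some (u, v)) (β i) (β (rep i₀))),
          algebraMap ℂ K (c i * (s i (rep i₀) : ℂ)) * L.IS (β (rep i₀)) := by
          apply Finset.sum_congr rfl
          intro i hi
          rw [← h3] at hi
          rw [(Finset.mem_filter.1 hi).2]
      _ = algebraMap ℂ K (∑ i ∈ Finset.univ.filter (fun i => ¬ Con i ∧
          Slide G (some (u, v)) (β i) (β (rep i₀))), c i * (s i (rep i₀) : ℂ)) *
            L.IS (β (rep i₀)) := by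
          rw [map_sum, Finset.sum_mul]
      _ = 0 := by rw [h4, map_zero, zero_mul]
  refine ⟨∑ i ∈ Finset.univ.filter (fun i => Con i), algebraMap ℂ K (c i) * y i +
    ∑ i ∈ Finset.univ.filter (fun i => ¬ Con i), algebraMap ℂ K (c i) * x i (rep i), ?_, ?_⟩
  · refine Subalgebra.add_mem _ (Subalgebra.sum_mem _ fun i hi => ?_)
      (Subalgebra.sum_mem _ fun i hi => ?_)
    · exact Subalgebra.mul_mem _ (Subalgebra.algebraMap_mem _ _)
        (hy i (Finset.mem_filter.1 hi).2)
    · exact Subalgebra.mul_mem _ (Subalgebra.algebraMap_mem _ _)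
        (hx i _ (hrep i (Finset.mem_filter.1 hi).2).2)
  · rw [hr0, ← Finset.sum_filter_add_sum_filter_not Finset.univ (fun i => Con i), mul_add,
      Finset.mul_sum, Finset.mul_sum]
    congr 1
    · apply Finset.sum_congr rfl
      intro i hi
      rw [hIS i (Finset.mem_filter.1 hi).2]; ring
    · rw [← sub_eq_zero, ← Finset.sum_sub_distrib, ← hmain]
      apply Finset.sum_congr rfl
      intro i hi
      rw [hsx i (rep i) (hrep i (Finset.mem_filter.1 hi).2).2, map_mul, map_intCast]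
      ring

end Pool.Agent.Lib.MP_eee7a8_ag.TB.C25
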