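import Pool.Agent.Lib.MP_eee7a8_ag.TB.C25.TagBasic
import Pool.Agent.Lib.MP_eee7a8_ag.TB.A.Coord

/-!
# TAGBR, module TTRI: the triangulation of a tagged triangulation (geometry)
-/

namespace Pool.Agent.Lib.MP_eee7a8_ag.TB.C25

variable {G : Subgroup SLZ}

theorem neg_zpow_or (g : SLZ) (k : ℤ) : (-g) ^ k = g ^ k ∨ (-g) ^ k = -g ^ k := by
  rcases Int.even_or_odd k with h | h
  · exact Or.inl (h.neg_zpow g)
  · exact Or.inr (h.neg_zpow g)

/-- Generators of the stabiliser of a cusp. -/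
theorem stab_gen (hSt : StabStatement) (hG : IsSurface G) (p : Cusp) :
    ∃ γ ∈ G, γ • p = p ∧ (∀ g ∈ G, g • p = p → ∃ k : ℤ, g = γ ^ k ∨ g = -γ ^ k) ∧
      (γ = par p (width G p) ∨ γ = -par p (width G p)) := by
  obtain ⟨-, h2, h3⟩ := hSt G hG p
  rcases h2 with h | h
  · refine ⟨_, h, par_smul_self _ _, ?_, Or.inl rfl⟩
    intro g hg hgp
    obtain ⟨k, hk⟩ := h3 g hg hgp
    exact ⟨k, by rw [par_zpow]; exact hk⟩
  · refine ⟨_, h, by rw [neg_smul', par_smul_self], ?_, Or.inr rfl⟩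
    intro g hg hgp
    obtain ⟨k, hk⟩ := h3 g hg hgp
    refine ⟨k, ?_⟩
    rcases neg_zpow_or (par p (width G p)) k with e | e <;> rw [e, par_zpow]
    · exact hk
    · rw [neg_neg]; exact hk.symm

theorem width_smul {g : SLZ} (hg : g ∈ G) (p : Cusp) : width G (g • p) = width G p := by
  have key : ∀ n : ℤ, par (g • p) n ∈ G ↔ par p n ∈ G := by
    intro n
    rw [← conj_par]
    constructor
    · intro h
      have := G.mul_mem (G.mul_mem (G.inv_mem hg) h) hg
      rwa [show g⁻¹ * (g * par p n * g⁻¹) * g = par p n by group] at this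
    · intro h
      exact G.mul_mem (G.mul_mem hg h) (G.inv_mem hg)
  have key' : ∀ n : ℤ, -par (g • p) n ∈ G ↔ -par p n ∈ G := by
    intro n
    rw [← conj_par]
    constructor
    · intro h
      have := G.mul_mem (G.mul_mem (G.inv_mem hg) h) hg
      have e : g⁻¹ * -(g * par p n * g⁻¹) * g = -par p n := by
        rw [mul_neg, neg_mul]; congr 1; group
      rwa [e] at this
    · intro h
      have := G.mul_mem (G.mul_mem hg h) (G.inv_mem hg)
      rwa [mul_neg, neg_mul] at this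
  unfold width
  simp only [key, key']

/-- Every translate of `w` by a generator. -/
theorem gen_smul (γ : SLZ) (p : Cusp) (n : ℤ) (h : γ = par p n ∨ γ = -par p n) (x : Cusp) :
    γ • x = par p n • x := by
  rcases h with rfl | rfl
  · rfl
  · rw [neg_smul']

/-- The enclosing loop. -/
theorem lenc_par (hSt : StabStatement) (hL : LencStatement) (hG : IsSurface G) {p w : Cusp}
    (hs : Simple G p w) (hno : ¬ Orb G p w) :
    Simple G w (par p (width G p) • w) ∧
    (∀ x y, NX G x y p w → ¬ Orb G x p → ¬ Orb G y p → NX G x y w (par p (width G p) • w)) ∧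
    NX G p w w (par p (width G p) • w) := by
  obtain ⟨γ, hγ, hγp, hgen, hγ'⟩ := stab_gen hSt hG p
  have hw := gen_smul γ p _ hγ' w
  obtain ⟨h1, h2, h3⟩ := hL G hG p w γ hγ hγp hgen hs (fun g hg e => hno ⟨g, hg, e⟩)
  rw [hw] at h1 h2 h3
  refine ⟨h1, ?_, h3⟩
  intro x y hx hxp hyp
  exact h2 x y hx (fun g hg => ⟨fun e => hxp ⟨g, hg, e⟩, fun e => hyp ⟨g, hg, e⟩⟩)

/-- Every invariant non-crossing relation is given by a finite family. -/
theorem fam_of_rel (hMF : MaxFlipStatement) (hFar : FareyStatement) (hG : IsSurface G)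
    (D : Cusp → Cusp → Prop) (hD : ∀ a b c d, SameArc G a b c d → D a b → D c d)
    (hne : ∀ a b, D a b → a ≠ b) (hnc : ∀ a b c d, D a b → D c d → ¬ Cross a b c d) :
    ∃ (m : ℕ) (Q : Fam (Fin m)), Q.NonCross G ∧ ∀ a b, Q.E G a b ↔ D a b := by
  obtain ⟨n, T, hT, -⟩ := hFar G hG
  let S := {p : Cusp × Cusp // D p.1 p.2}
  let st : Setoid S := ⟨fun p q => SameArc G p.1.1 p.1.2 q.1.1 q.1.2,
    ⟨fun p => SameArc.refl _ _, fun h => h.symm, fun h h' => h.trans h'⟩⟩
  let X := Quotient st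
  have hfam : ∀ (κ : Type) (r : κ → S), Fam.NonCross G (⟨fun k => (r k).1.1, fun k => (r k).1.2⟩ :
      Fam κ) := by
    intro κ r
    refine ⟨fun k => hne _ _ (r k).2, ?_⟩
    rintro a b c d ⟨k, hk⟩ ⟨l, hl⟩
    exact hnc _ _ _ _ (hD _ _ _ _ hk (r k).2) (hD _ _ _ _ hl (r l).2)
  have hfin : Finite X := by
    by_contra hinf
    rw [not_finite_iff_infinite] at hinf
    obtain ⟨s, hs⟩ := Infinite.exists_subset_card_eq X (n + 1)
    let e : Fin (n + 1) ≃ s := (Fintype.equivFinOfCardEq (by simpa using hs)).symm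
    let r : Fin (n + 1) → S := fun k => (e k : X).out
    obtain ⟨T', hT', -, hsub⟩ := hMF G hG (Fin n) (Fin (n + 1)) T _ hT (hfam _ r)
    have hidx : ∀ k, ∃ i, SameArc G (T'.s i) (T'.t i) (r k).1.1 (r k).1.2 := fun k =>
      hsub _ _ ⟨k, SameArc.refl _ _⟩
    choose f hf using hidx
    have hinj : Function.Injective f := by
      intro k l hkl
      have h1 : SameArc G (r k).1.1 (r k).1.2 (r l).1.1 (r l).1.2 := by
        have h2 := hf k
        rw [hkl] at h2
        exact h2.symm.trans (hf l)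
      have h2 : (⟦r k⟧ : X) = ⟦r l⟧ := Quotient.sound h1
      have h3 : ((e k : s) : X) = e l := by
        have e1 : (⟦r k⟧ : X) = e k := Quotient.out_eq _
        have e2 : (⟦r l⟧ : X) = e l := Quotient.out_eq _
        rw [← e1, ← e2, h2]
      exact e.injective (Subtype.ext h3)
    have := Fintype.card_le_of_injective f hinj
    simp at this
  obtain ⟨m, ⟨e⟩⟩ := Finite.exists_equiv_fin X
  let r : Fin m → S := fun k => (e.symm k).out
  refine ⟨m, ⟨fun k => (r k).1.1, fun k => (r k).1.2⟩, hfam _ r, ?_⟩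
  intro a b
  constructor
  · rintro ⟨k, hk⟩
    exact hD _ _ _ _ hk (r k).2
  · intro hab
    refine ⟨e ⟦⟨(a, b), hab⟩⟧, ?_⟩
    have : st.r (r (e ⟦⟨(a, b), hab⟩⟧)) ⟨(a, b), hab⟩ := by
      apply Quotient.exact
      show (⟦(e.symm (e ⟦⟨(a, b), hab⟩⟧)).out⟧ : X) = _
      rw [Quotient.out_eq, Equiv.symm_apply_apply]
    exact this

/-- Underlying arcs. -/
def UA (Tt : Set TArc) (x y : Cusp) : Prop := ∃ τ ∈ Tt, τ.a = x ∧ τ.b = y

/-- Loops enclosing the punctures with two tags. -/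
def LA (G : Subgroup SLZ) (Tt : Set TArc) (x y : Cusp) : Prop :=
  ∃ p w, Two Tt p ∧ UA Tt p w ∧ SameArc G w (par p (width G p) • w) x y

section Tri

variable {Tt : Set TArc} (h : IsTTri G Tt)

include h

theorem ua_same {a b c d : Cusp} (hs : SameArc G a b c d) (hu : UA Tt a b) : UA Tt c d := by
  obtain ⟨τ, hτ, rfl, rfl⟩ := hu
  obtain ⟨g, hg, ⟨rfl, rfl⟩ | ⟨rfl, rfl⟩⟩ := hs
  · exact ⟨smA g τ, tt_sm h hg hτ, rfl, rfl⟩
  · exact ⟨rvA (smA g τ), tt_rv h (tt_sm h hg hτ), rfl, rfl⟩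

theorem ua_simple {a b : Cusp} (hu : UA Tt a b) : Simple G a b := by
  obtain ⟨τ, hτ, rfl, rfl⟩ := hu
  exact ⟨(h.arc τ hτ).ne, (h.arc τ hτ).simple⟩

theorem ua_nx {a b c d : Cusp} (hu : UA Tt a b) (hv : UA Tt c d) : NX G a b c d := by
  obtain ⟨τ, hτ, rfl, rfl⟩ := hu
  obtain ⟨υ, hυ, rfl, rfl⟩ := hv
  exact (h.compat τ hτ υ hυ).1

theorem ua_no {p w : Cusp} (hp : Two Tt p) (hu : UA Tt p w) : ¬ Orb G p w := by
  obtain ⟨τ, hτ, rfl, rfl⟩ := hu
  exact two_ends h hp hτ rfl

theorem ua_two {p w : Cusp} (hp : Two Tt p) (hu : UA Tt p w) : ¬ Two Tt w := by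
  obtain ⟨τ, hτ, rfl, rfl⟩ := hu
  exact (two_other h hp hτ rfl).1

/-- The only arc at a puncture with two tags. -/
theorem ua_unique {p w x y : Cusp} (hp : Two Tt p) (hu : UA Tt p w) (hx : UA Tt x y)
    (ho : Orb G x p) : SameArc G x y p w := by
  obtain ⟨g, hg, hgx⟩ := ho
  obtain ⟨τ, hτ, h1, h2⟩ := hu
  obtain ⟨υ, hυ, h3, h4⟩ := ua_same h (SameArc.smul hg x y) hx
  rw [hgx] at h3
  have := (two_unique h hp hυ hτ h3 h1).1
  rw [h3, h4, h1, h2] at this
  exact (SameArc.smul hg x y).trans (hgx ▸ this.same)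

theorem la_simple (hSt : StabStatement) (hL : LencStatement) (hG : IsSurface G) {x y : Cusp}
    (hl : LA G Tt x y) : Simple G x y := by
  obtain ⟨p, w, hp, hu, hs⟩ := hl
  exact (lenc_par hSt hL hG (ua_simple h hu) (ua_no h hp hu)).1.of_same hs

theorem ua_la (hSt : StabStatement) (hL : LencStatement) (hG : IsSurface G) {x y c d : Cusp}
    (hx : UA Tt x y) (hl : LA G Tt c d) : NX G x y c d := by
  obtain ⟨p, w, hp, hu, hs⟩ := hl
  obtain ⟨-, h2, h3⟩ := lenc_par hSt hL hG (ua_simple h hu) (ua_no h hp hu)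
  apply NX.same_right _ hs
  by_cases hxp : Orb G x p
  · exact h3.same_left (ua_unique h hp hu hx hxp).symm
  by_cases hyp : Orb G y p
  · have hx' : UA Tt y x := ua_same h (SameArc.rev _ _) hx
    exact h3.same_left ((SameArc.rev x y).trans (ua_unique h hp hu hx' hyp)).symm
  · exact h2 x y (ua_nx h hx hu) hxp hyp

theorem la_la (hSt : StabStatement) (hL : LencStatement) (hG : IsSurface G) {x y c d : Cusp}
    (hx : LA G Tt x y) (hl : LA G Tt c d) : NX G x y c d := by
  obtain ⟨q, v, hq, hv, hs'⟩ := hx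
  have hx : LA G Tt v (par q (width G q) • v) := ⟨q, v, hq, hv, SameArc.refl _ _⟩
  apply NX.same_left _ hs'
  obtain ⟨p, w, hp, hu, hs⟩ := hl
  have hl : LA G Tt w (par p (width G p) • w) := ⟨p, w, hp, hu, SameArc.refl _ _⟩
  apply NX.same_right _ hs
  obtain ⟨-, h2, -⟩ := lenc_par hSt hL hG (ua_simple h hu) (ua_no h hp hu)
  by_cases hpq : Orb G q p
  · -- the same loop
    have h5 := ua_unique h hp hu hv hpq
    have h6 : SameArc G v (par q (width G q) • v) w (par p (width G p) • w) := by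
      obtain ⟨g, hg, hgq⟩ := hpq
      -- `g v` is a neighbour of `p`
      have h7 : UA Tt p (g • v) := by
        rw [← hgq]; exact ua_same h (SameArc.smul hg q v) hv
      obtain ⟨τ, hτ, e1, e2⟩ := hu
      obtain ⟨υ, hυ, e3, e4⟩ := h7
      obtain ⟨k, hk, k1, k2⟩ := (two_unique h hp hυ hτ e3 e1).1
      rw [e3, e1] at k1
      rw [e4, e2] at k2
      have hkg : k * g ∈ G := G.mul_mem hk hg
      have hq' : (k * g) • q = p := by rw [mul_smul, hgq, k1]
      have hw : width G q = width G p := by rw [← hq', width_smul hkg]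
      refine ⟨k * g, hkg, Or.inl ⟨by rw [mul_smul, k2], ?_⟩⟩
      have e5 := conj_par (k * g) q (width G q)
      rw [hq'] at e5
      rw [← hw, ← e5, mul_smul, mul_smul, ← k2, ← mul_smul k g v, inv_smul_smul, mul_smul,
        mul_smul]
    exact (la_simple h hSt hL hG hl).2 |> fun hh => NX.same_left hh h6.symm
  · refine h2 _ _ ?_ ?_ ?_
    · exact (ua_la h hSt hL hG hu hx).symm
    · intro ho
      exact ua_two h hq hv (two_orb h ho.symm hp)
    · intro ho
      refine ua_two h hq hv (two_orb h ?_ hp)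
      obtain ⟨η, hη, -, -, hη'⟩ := stab_gen hSt hG q
      rw [← gen_smul η q _ hη'] at ho
      exact ho.symm.trans (Orb.smul hη v).symm

end Tri

end Pool.Agent.Lib.MP_eee7a8_ag.TB.C25
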