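import Pool.Agent.Lib.MP_eee7a8_ag.TB.Iface3
import Pool.Agent.Lib.MP_eee7a8_ag.TB.C2.Vabs
import Pool.Agent.Lib.MP_eee7a8_ag.TB.C25.TtGeo

/-!
# TAGBR, module PUSH
-/

namespace Pool.Agent.Lib.MP_eee7a8_ag.TB.C25

variable {G : Subgroup SLZ} {K : Type} [Field K] [Algebra ℂ K]

/-! ## Group elements acting as `par c n` -/

theorem eps_par (c : Cusp) (n : ℤ) : eps (par c n) c = 1 := by
  have h1 := par_smul_x c c n
  have h2 := par_smul_y c c n
  rw [par_smul_self, dt_self, mul_zero, zero_mul, add_zero] at h1 h2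
  rcases c.ne_zero with h | h
  · apply mul_right_cancel₀ h; rw [h1, one_mul]
  · apply mul_right_cancel₀ h; rw [h2, one_mul]

/-- `γ = s par c n`. -/
theorem eps_of {γ : SLZ} {c : Cusp} {n s : ℤ} (h : (s = 1 ∧ γ = par c n) ∨
    (s = -1 ∧ γ = -par c n)) (x : Cusp) :
    eps γ x = s * eps (par c n) x ∧ γ • x = par c n • x ∧ s * s = 1 := by
  rcases h with ⟨rfl, rfl⟩ | ⟨rfl, rfl⟩
  · exact ⟨by ring, rfl, by norm_num⟩
  · exact ⟨by rw [C2.eps_neg]; ring, neg_smul' _ _, by norm_num⟩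

/-- The action of `γ = ± par c (k width)` on the vectors `W`: `R γ = ±(1 + k v_c N_c)`, entries. -/
theorem rep_par (vpar : VparStatement) (nonzero : NonzeroStatement) (hG : IsSurface G)
    (L : Lam G K) (Rp : Rep L) (c : Cusp) (k s : ℤ) (γ : G)
    (hγ : (s = 1 ∧ (γ : SLZ) = par c (k * width G c)) ∨
      (s = -1 ∧ (γ : SLZ) = -par c (k * width G c))) (i j : Fin 2) :
    (Rp.R γ).1 i j = s * ((if i = j then 1 else 0) +
      k * L.v c * (Rp.W c i * (if j = 0 then -Rp.W c 1 else Rp.W c 0))) := by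
  obtain ⟨y, hy⟩ : ∃ y : Cusp, y ≠ c := by
    by_cases h : c = infty
    · exact ⟨zero, by
        rw [h]; intro h'
        have := congrArg Cusp.x h'
        simp [zero, infty] at this⟩
    · exact ⟨infty, Ne.symm h⟩
  have hD0 : L.sl c y ≠ 0 := by
    intro h0
    have h2 := C2.sl_sq L c y
    rw [h0, mul_zero] at h2
    exact nonzero G K L hG c y (Ne.symm hy) (pow_eq_zero_iff (two_ne_zero) |>.1 h2.symm)
  set p := par c (k * width G c) with hp
  have hE := fun x => eps_of hγ x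
  have q1 := vpar G K L hG c c y k
  have q2 := vpar G K L hG c y y k
  rw [← hp] at q1 q2
  have s0 : L.sl c c = 0 := C2.sl_self L c
  have s1 : L.sl y y = 0 := C2.sl_self L y
  rw [s0, mul_zero, add_zero] at q1
  rw [s1, zero_add] at q2
  have d1 := Rp.det c (p • y)
  have d2 := Rp.det y (p • y)
  have d3 := Rp.det c y
  have d4 := Rp.det y c
  set D := L.sl c y with hD
  set E : K := ((eps p y : ℤ) : K) with hEd
  have f1 : Rp.W c 0 * (E * Rp.W (p • y) 1 - Rp.W y 1 - k * L.v c * D * Rp.W c 1) -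
      Rp.W c 1 * (E * Rp.W (p • y) 0 - Rp.W y 0 - k * L.v c * D * Rp.W c 0) = 0 := by
    linear_combination E * d1 - d3 + q1
  have f2 : Rp.W y 0 * (E * Rp.W (p • y) 1 - Rp.W y 1 - k * L.v c * D * Rp.W c 1) -
      Rp.W y 1 * (E * Rp.W (p • y) 0 - Rp.W y 0 - k * L.v c * D * Rp.W c 0) = 0 := by
    linear_combination E * d2 + q2 - k * L.v c * D * d4
  have t0 : E * Rp.W (p • y) 0 - Rp.W y 0 - k * L.v c * D * Rp.W c 0 = 0 := by
    apply mul_left_cancel₀ hD0
    rw [mul_zero]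
    linear_combination Rp.W y 0 * f1 - Rp.W c 0 * f2 -
      (E * Rp.W (p • y) 0 - Rp.W y 0 - k * L.v c * D * Rp.W c 0) * d3
  have t1 : E * Rp.W (p • y) 1 - Rp.W y 1 - k * L.v c * D * Rp.W c 1 = 0 := by
    apply mul_left_cancel₀ hD0
    rw [mul_zero]
    linear_combination Rp.W y 1 * f1 - Rp.W c 1 * f2 -
      (E * Rp.W (p • y) 1 - Rp.W y 1 - k * L.v c * D * Rp.W c 1) * d3
  have c0 := C2.rep_act L Rp γ y 0
  have c1 := C2.rep_act L Rp γ y 1
  have b0 := C2.rep_act L Rp γ c 0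
  have b1 := C2.rep_act L Rp γ c 1
  have hepc : eps p c = 1 := eps_par c _
  have hpc : p • c = c := par_smul_self _ _
  rw [(hE y).1, (hE y).2.1] at c0 c1
  rw [(hE c).1, (hE c).2.1, hpc, hepc, mul_one] at b0 b1
  push_cast at c0 c1
  rw [← hEd] at c0 c1
  have c0' : (Rp.R γ).1 0 0 * Rp.W y 0 + (Rp.R γ).1 0 1 * Rp.W y 1 =
      s * (Rp.W y 0 + k * L.v c * D * Rp.W c 0) := by
    rw [c0]; linear_combination (s : K) * t0
  have c1' : (Rp.R γ).1 1 0 * Rp.W y 0 + (Rp.R γ).1 1 1 * Rp.W y 1 =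
      s * (Rp.W y 1 + k * L.v c * D * Rp.W c 1) := by
    rw [c1]; linear_combination (s : K) * t1
  have hD3 : D = Rp.W c 0 * Rp.W y 1 - Rp.W c 1 * Rp.W y 0 := d3.symm
  fin_cases i <;> fin_cases j <;> apply mul_left_cancel₀ hD0 <;> simp only [Fin.zero_eta,
    Fin.mk_one, Fin.isValue, if_true, one_ne_zero, zero_ne_one, if_false]
  · rw [hD3] at c0' ⊢
    linear_combination Rp.W y 1 * b0 - Rp.W c 1 * c0'
  · rw [hD3] at c0' ⊢
    linear_combination (-Rp.W y 0) * b0 + Rp.W c 0 * c0'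
  · rw [hD3] at c1' ⊢
    linear_combination Rp.W y 1 * b1 - Rp.W c 1 * c1'
  · rw [hD3] at c1' ⊢
    linear_combination (-Rp.W y 0) * b1 + Rp.W c 0 * c1'

/-- Trace of `R (γ g)`. -/
theorem tr_par (vpar : VparStatement) (nonzero : NonzeroStatement) (hG : IsSurface G)
    (L : Lam G K) (Rp : Rep L) (c : Cusp) (k s : ℤ) (γ g : G)
    (hγ : (s = 1 ∧ (γ : SLZ) = par c (k * width G c)) ∨
      (s = -1 ∧ (γ : SLZ) = -par c (k * width G c))) :
    (Rp.R g).1.trace = s * (Rp.R (γ * g)).1.trace -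
      k * L.v c * (((eps (g : SLZ) c : ℤ) : K) * L.sl c ((g : SLZ) • c)) := by
  have hR := rep_par vpar nonzero hG L Rp c k s γ hγ
  have hss : (s : K) * s = 1 := by
    have := congrArg (Int.cast : ℤ → K) (eps_of hγ c).2.2
    push_cast at this
    exact this
  have hmul : (Rp.R (γ * g)).1 = (Rp.R γ).1 * (Rp.R g).1 := by rw [map_mul]; rfl
  have a0 := C2.rep_act L Rp g c 0
  have a1 := C2.rep_act L Rp g c 1
  have dg := Rp.det c ((g : SLZ) • c)
  rw [hmul, Matrix.trace_fin_two, Matrix.trace_fin_two]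
  simp only [Matrix.mul_apply, Fin.sum_univ_two]
  rw [hR 0 0, hR 0 1, hR 1 0, hR 1 1]
  simp only [if_true, one_ne_zero, zero_ne_one, if_false]
  have dg' : ((eps (g : SLZ) c : ℤ) : K) * L.sl c ((g : SLZ) • c) =
      Rp.W c 0 * ((Rp.R g).1 1 0 * Rp.W c 0 + (Rp.R g).1 1 1 * Rp.W c 1) -
      Rp.W c 1 * ((Rp.R g).1 0 0 * Rp.W c 0 + (Rp.R g).1 0 1 * Rp.W c 1) := by
    rw [a0, a1, ← dg]; ring
  rw [dg']
  linear_combination (-((Rp.R g).1 0 0 + (Rp.R g).1 1 1) - k * L.v c *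
    (Rp.W c 0 * ((Rp.R g).1 1 0 * Rp.W c 0 + (Rp.R g).1 1 1 * Rp.W c 1) -
      Rp.W c 1 * ((Rp.R g).1 0 0 * Rp.W c 0 + (Rp.R g).1 0 1 * Rp.W c 1))) * hss

/-! ## Separating strands -/

theorem ge_symm {e : Option (Cusp × Cusp)} {a b : Cusp} (h : Ge G e a b) : Ge G e b a := by
  obtain ⟨p, hp, hs⟩ := h
  exact ⟨p, hp, hs.trans (SameArc.rev _ _)⟩

theorem sep_cform (hFa : FormaStatement) (e : Option (Cusp × Cusp)) (a b : Cusp) :
    Sep G e (cform a) (cform b) = {s | Ge G e s.1 s.2 ∧ Cross a b s.1 s.2} := by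
  ext s
  unfold Sep Cross
  simp only [Set.mem_ofPred_eq]
  rw [(hFa.2.2.2.2.2.1 a).2, (hFa.2.2.2.2.2.1 b).2]
  have : (dt a s.1 : ℝ) * dt a s.2 * ((dt b s.1 : ℝ) * dt b s.2) =
      (((dt a s.1 * dt b s.1) * (dt a s.2 * dt b s.2) : ℤ) : ℝ) := by push_cast; ring
  rw [this]
  constructor
  · rintro ⟨h1, h2⟩; exact ⟨h1, by exact_mod_cast h2⟩
  · rintro ⟨h1, h2⟩; exact ⟨h1, by exact_mod_cast h2⟩

theorem ge_nocross {u v : Cusp} (hA : Adm G (some (u, v))) {a b c d : Cusp}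
    (h : Ge G (some (u, v)) a b) (h' : Ge G (some (u, v)) c d) : ¬ Cross a b c d := by
  obtain ⟨p, hp, hs⟩ := h
  obtain ⟨q, hq, hs'⟩ := h'
  cases hp
  cases hq
  have hsim := (hA _ rfl).1
  have : NX G u v u v := hsim.2
  exact ((this.same_left hs).same_right hs').not_cross

theorem push (hPc : PushcStatement) (hNs : NclsepStatement) (hFa : FormaStatement)
    (hFb : FormbStatement) (hRep : RepStatement) (hTr : TraceStatement) (hSt : StabStatement)
    (hVp : VparStatement) (hVi : VinvStatement) (hNz : NonzeroStatement) : PushStatement := by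
  intro G K _ _ L hG u v hA
  obtain ⟨Rp⟩ := hRep G K L hG
  set e : Option (Cusp × Cusp) := some (u, v) with he
  set A := Algebra.adjoin ℂ ((L.RR (Ge G e) : Set K) ∪ {L.v u}) with hAdef
  have hvu : L.v u ∈ A := Algebra.subset_adjoin (Or.inr rfl)
  have hRR : ∀ x ∈ L.RR (Ge G e), x ∈ A := fun x hx => Algebra.subset_adjoin (Or.inl hx)
  -- an edge of `Ge` has an end in the orbit of `u`
  have hend : ∀ c d, Ge G e c d → ∃ c' d', Ge G e c' d' ∧ L.v c' = L.v u ∧
      ((c' = c ∧ d' = d) ∨ (c' = d ∧ d' = c)) := by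
    rintro c d ⟨p, hp, hs⟩
    have hp' : (u, v) = p := Option.some.inj hp
    subst hp'
    obtain ⟨g, hg, ⟨h1, h2⟩ | ⟨h1, h2⟩⟩ := hs
    · refine ⟨c, d, ⟨(u, v), rfl, g, hg, Or.inl ⟨h1, h2⟩⟩, ?_, Or.inl ⟨rfl, rfl⟩⟩
      rw [← h1]; exact (hVi G K L hG).1 g hg u
    · refine ⟨d, c, ⟨(u, v), rfl, g, hg, Or.inl ⟨h1, h2⟩⟩, ?_, Or.inr ⟨rfl, rfl⟩⟩
      rw [← h1]; exact (hVi G K L hG).1 g hg u
  -- generators and their inverses
  have hgen : ∀ c : Cusp, ∃ γ ∈ G, γ • c = c ∧ (∀ g ∈ G, g • c = c → ∃ k : ℤ, g = γ ^ k ∨ g = -γ ^ k) ∧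
      ∀ γ' : SLZ, (γ' = γ ∨ γ' = γ⁻¹) → ∃ k s : ℤ, (s = 1 ∧ γ' = par c (k * width G c)) ∨
        (s = -1 ∧ γ' = -par c (k * width G c)) := by
    intro c
    obtain ⟨γ, hγ, hγc, hgen, hγ'⟩ := stab_gen hSt hG c
    refine ⟨γ, hγ, hγc, hgen, ?_⟩
    rintro γ' (rfl | rfl)
    · rcases hγ' with h | h
      · exact ⟨1, 1, Or.inl ⟨rfl, by rw [one_mul]; exact h⟩⟩
      · exact ⟨1, -1, Or.inr ⟨rfl, by rw [one_mul]; exact h⟩⟩
    · rcases hγ' with h | h
      · refine ⟨-1, 1, Or.inl ⟨rfl, ?_⟩⟩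
        rw [h, par_inv]; congr 1; ring
      · refine ⟨-1, -1, Or.inr ⟨rfl, ?_⟩⟩
        rw [h]
        have : (-par c (width G c) : SLZ)⁻¹ = -(par c (width G c))⁻¹ := inv_neg
        rw [this, par_inv]; congr 2; ring
  have hlam_sl : ∀ a b, L.sl a b ∈ A ↔ L.lam a b ∈ A := by
    intro a b
    constructor
    · intro h
      rw [C2.lam_eq_sl]
      exact A.mul_mem (A.intCast_mem _) h
    · intro h
      rw [Lam.sl]
      exact A.mul_mem (A.intCast_mem _) h
  -- pairs
  have hpair : ∀ n : ℕ, ∀ a b, (Sep G e (cform a) (cform b)).ncard = n → L.lam a b ∈ A := by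
    intro n
    induction n using Nat.strong_induction_on with
    | _ n ih =>
    intro a b hn
    have hfin := hFb.2 G e a b
    by_cases hemp : Sep G e (cform a) (cform b) = ∅
    · apply hRR
      apply Algebra.subset_adjoin
      refine Or.inl ⟨a, b, ?_, rfl⟩
      intro c d hcd hc
      have : (c, d) ∈ Sep G e (cform a) (cform b) := by
        rw [sep_cform hFa]; exact ⟨hcd, hc⟩
      rw [hemp] at this
      exact this
    · obtain ⟨s, hs⟩ := Set.nonempty_iff_ne_empty.2 hemp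
      have hs' := hs
      rw [sep_cform hFa] at hs'
      obtain ⟨hGe, hcr⟩ := hs'
      obtain ⟨c, d, hcd, hvc, hcd'⟩ := hend _ _ hGe
      have hcr : Cross a b c d := by
        rcases hcd' with ⟨rfl, rfl⟩ | ⟨rfl, rfl⟩
        · exact hcr
        · exact cross_comm_right.1 hcr
      have hmem : (c, d) ∈ Sep G e (cform a) (cform b) := by
        rw [sep_cform hFa]; exact ⟨hcd, hcr⟩
      obtain ⟨γ, hγ, hγc, hgenc, hγall⟩ := hgen c
      obtain ⟨γ', hγ', hfin', hlt⟩ := hPc G hG e hA (cform a) (cform b) (hFa.2.2.2.2.2.1 a).1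
        (hFa.2.2.2.2.2.1 b).1 hfin c d hcd (by
          exact hmem.2) γ hγ hγc hgenc
      obtain ⟨k, s, hks⟩ := hγall γ' hγ'
      rw [hFa.2.2.2.2.1] at hfin' hlt
      have h1 : L.lam a (γ' • b) ∈ A := ih _ (by rw [← hn]; exact hlt) a (γ' • b) rfl
      -- the other pairs
      have h2 : L.lam a c ∈ A := by
        refine ih _ ?_ a c rfl
        rw [← hn]
        apply Set.ncard_lt_ncard _ hfin
        rw [Set.ssubset_iff_of_subset]
        · refine ⟨(c, d), hmem, ?_⟩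
          rw [sep_cform hFa]
          rintro ⟨-, h⟩
          exact h.ne.2.2.2.1 rfl
        · intro s hs
          rw [sep_cform hFa] at hs ⊢
          refine ⟨hs.1, cross_swap.1 ?_⟩
          rcases Cross.side hcr (cross_swap.1 hs.2) with h | h
          · exact h
          · exact absurd h (ge_nocross hA hs.1 hcd)
      have h3 : L.lam c b ∈ A := by
        refine ih _ ?_ c b rfl
        rw [← hn]
        apply Set.ncard_lt_ncard _ hfin
        rw [Set.ssubset_iff_of_subset]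
        · refine ⟨(c, d), hmem, ?_⟩
          rw [sep_cform hFa]
          rintro ⟨-, h⟩
          exact h.ne.2.1 rfl
        · intro s hs
          rw [sep_cform hFa] at hs ⊢
          refine ⟨hs.1, cross_swap.1 ?_⟩
          have hs2 : Cross s.1 s.2 b c := cross_comm_right.1 (cross_swap.1 hs.2)
          rcases Cross.side (cross_comm_left.1 hcr) hs2 with h | h
          · exact cross_comm_right.1 h
          · exact absurd h (ge_nocross hA hs.1 hcd)
      have h4 := hVp G K L hG c a b k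
      have h5 : L.sl a b = ((eps (par c (k * width G c)) b : ℤ) : K) * L.sl a (γ' • b) -
          k * L.v u * L.sl c b * L.sl a c := by
        rw [(eps_of hks b).2.1, h4, hvc]; ring
      rw [← hlam_sl, h5]
      refine A.sub_mem (A.mul_mem (A.intCast_mem _) ((hlam_sl _ _).2 h1)) ?_
      exact A.mul_mem (A.mul_mem (A.mul_mem (A.intCast_mem _) hvu) ((hlam_sl _ _).2 h3))
        ((hlam_sl _ _).2 h2)
  have hlam : ∀ a b, L.lam a b ∈ A := fun a b => hpair _ a b rfl
  -- traces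
  obtain ⟨B, hB1, hB2, hB3⟩ := hFa.2.2.2.2.2.2
  have hBpsd : B.Psd := by
    refine ⟨hB1.le, ?_, hB2.le, ?_⟩
    · by_contra h
      push Not at h
      nlinarith [sq_nonneg B.q]
    · by_contra h
      push Not at h
      nlinarith [sq_nonneg B.q]
  have htr : ∀ n : ℕ, ∀ g : G, (Sep G e B (Form.act g B)).ncard = n →
      (Rp.R g).1.trace ∈ A := by
    intro n
    induction n using Nat.strong_induction_on with
    | _ n ih =>
    intro g hn
    have hgB := hFa.2.2.2.1 g B hB1 hB2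
    have hfin : (Sep G e B (Form.act g B)).Finite := hFb.1 G e B _ hB1 hgB.1 hB2 hgB.2
    by_cases hemp : Sep G e B (Form.act g B) = ∅
    · rcases (hG.tor g.1 g.2).lt_or_eq with h | h
      · have hncl := hNs G hG e hA B hB1 hB2 (fun c d _ => hB3 c d) g.1 g.2 h hemp
        have h7 := (hTr G K L hG g.1 g.2 h).2.2.2.2.2.2 Rp g rfl
        have hmem : L.tr g.1 ∈ A := hRR _ (Algebra.subset_adjoin (Or.inr ⟨g.1, g.2, h, hncl, rfl⟩))
        have htr0 : (g.1 : SLZ).1.trace ≠ 0 := by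
          intro h0; rw [h0] at h; norm_num at h
        have hs : ((Int.sign (g.1 : SLZ).1.trace : ℤ) : K) *
            ((Int.sign (g.1 : SLZ).1.trace : ℤ) : K) = 1 := by
          have : Int.sign (g.1 : SLZ).1.trace * Int.sign (g.1 : SLZ).1.trace = 1 := by
            rcases lt_or_gt_of_ne htr0 with h2 | h2
            · rw [Int.sign_eq_neg_one_of_neg h2]; norm_num
            · rw [Int.sign_eq_one_of_pos h2]; norm_num
          have := congrArg (Int.cast : ℤ → K) this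
          push_cast at this
          exact this
        have h9 : (Rp.R g).1.trace = ((Int.sign (g.1 : SLZ).1.trace : ℤ) : K) * L.tr g.1 := by
          rw [h7, ← mul_assoc, hs, one_mul]
        rw [h9]
        exact A.mul_mem (A.intCast_mem _) hmem
      · -- parabolic or `±1`
        obtain ⟨c, hc⟩ := C2.exists_fixed g.1 h.symm
        obtain ⟨n, hn⟩ := (hSt G hG c).2.2 g.1 g.2 hc
        obtain ⟨s, hs⟩ : ∃ s : ℤ, (s = 1 ∧ (g : SLZ) = par c (n * width G c)) ∨
            (s = -1 ∧ (g : SLZ) = -par c (n * width G c)) := by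
          rcases hn with h | h
          · exact ⟨1, Or.inl ⟨rfl, h⟩⟩
          · exact ⟨-1, Or.inr ⟨rfl, h⟩⟩
        have hR := rep_par hVp hNz hG L Rp c n s g hs
        have : (Rp.R g).1.trace = ((s : ℤ) : K) * ((2 : ℤ) : K) := by
          rw [Matrix.trace_fin_two, hR 0 0, hR 1 1]
          simp only [if_true, one_ne_zero, if_false]
          push_cast; ring
        rw [this]
        exact A.mul_mem (A.intCast_mem _) (A.intCast_mem _)
    · obtain ⟨s, hs⟩ := Set.nonempty_iff_ne_empty.2 hemp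
      obtain ⟨hGe, hneg⟩ := hs
      obtain ⟨c, d, hcd, hvc, hcd'⟩ := hend _ _ hGe
      have hev : ∀ (B : Form) (a b : Cusp), B.ev a b = B.ev b a := by
        intro B a b; unfold Form.ev; ring
      have hneg' : B.ev c d * (Form.act g B).ev c d < 0 := by
        rcases hcd' with ⟨rfl, rfl⟩ | ⟨rfl, rfl⟩
        · exact hneg
        · rw [hev B, hev (Form.act g B)]; exact hneg
      obtain ⟨γ, hγ, hγc, hgenc, hγall⟩ := hgen c
      obtain ⟨γ', hγ', hfin', hlt⟩ := hPc G hG e hA B (Form.act g B) hBpsd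
        (hFa.2.2.1 g B hBpsd) hfin c d hcd hneg' γ hγ hγc hgenc
      obtain ⟨k, s, hks⟩ := hγall γ' hγ'
      have hγ'G : γ' ∈ G := by
        rcases hγ' with rfl | rfl
        · exact hγ
        · exact G.inv_mem hγ
      rw [hFa.2.1] at hlt
      have h1 := ih _ (by rw [← hn]; exact hlt) (⟨γ', hγ'G⟩ * g) rfl
      rw [tr_par hVp hNz hG L Rp c k s ⟨γ', hγ'G⟩ g hks, hvc]
      refine A.sub_mem (A.mul_mem (A.intCast_mem _) h1) (A.mul_mem (A.mul_mem (A.intCast_mem _)
        hvu) (A.mul_mem (A.intCast_mem _) ((hlam_sl _ _).2 (hlam _ _))))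
  have hle : L.RA ≤ A := by
    apply Algebra.adjoin_le
    rintro x (⟨a, b, -, rfl⟩ | ⟨g, h1, h2, -, rfl⟩)
    · exact hlam a b
    · have h7 := (hTr G K L hG g h1 h2).2.2.2.2.2.2 Rp ⟨g, h1⟩ rfl
      rw [h7]
      exact A.mul_mem (A.intCast_mem _) (htr _ ⟨g, h1⟩ rfl)
  exact fun x hx => hle hx

end Pool.Agent.Lib.MP_eee7a8_ag.TB.C25
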