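import Pool.Agent.Lib.MP_eee7a8_ag.TB.Iface4
import Pool.Agent.Lib.MP_eee7a8_ag.TB.A.Tri

/-!
# TAGBR, module TTRI: elementary properties of tagged triangulations
-/

namespace Pool.Agent.Lib.MP_eee7a8_ag.TB.C25

variable {G : Subgroup SLZ}

/-- The cusps `a` and `b` are in one orbit. -/
def Orb (G : Subgroup SLZ) (a b : Cusp) : Prop := ∃ g ∈ G, g • a = b

/-- Oriented equality of arcs. -/
def SameO (G : Subgroup SLZ) (a b c d : Cusp) : Prop := ∃ g ∈ G, g • a = c ∧ g • b = d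

theorem Orb.refl (a : Cusp) : Orb G a a := ⟨1, G.one_mem, one_smul _ _⟩

theorem Orb.symm {a b : Cusp} (h : Orb G a b) : Orb G b a := by
  obtain ⟨g, hg, rfl⟩ := h
  exact ⟨g⁻¹, G.inv_mem hg, inv_smul_smul _ _⟩

theorem Orb.trans {a b c : Cusp} (h : Orb G a b) (h' : Orb G b c) : Orb G a c := by
  obtain ⟨g, hg, rfl⟩ := h
  obtain ⟨k, hk, rfl⟩ := h'
  exact ⟨k * g, G.mul_mem hk hg, mul_smul _ _ _⟩

theorem Orb.smul {g : SLZ} (hg : g ∈ G) (a : Cusp) : Orb G a (g • a) := ⟨g, hg, rfl⟩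

theorem SameO.symm {a b c d : Cusp} (h : SameO G a b c d) : SameO G c d a b := by
  obtain ⟨g, hg, rfl, rfl⟩ := h
  exact ⟨g⁻¹, G.inv_mem hg, inv_smul_smul _ _, inv_smul_smul _ _⟩

theorem SameO.trans {a b c d e f : Cusp} (h : SameO G a b c d) (h' : SameO G c d e f) :
    SameO G a b e f := by
  obtain ⟨g, hg, rfl, rfl⟩ := h
  obtain ⟨k, hk, rfl, rfl⟩ := h'
  exact ⟨k * g, G.mul_mem hk hg, mul_smul _ _ _, mul_smul _ _ _⟩

theorem SameO.rev {a b c d : Cusp} (h : SameO G a b c d) : SameO G b a d c := by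
  obtain ⟨g, hg, h1, h2⟩ := h
  exact ⟨g, hg, h2, h1⟩

theorem SameO.smul {g : SLZ} (hg : g ∈ G) (a b : Cusp) : SameO G a b (g • a) (g • b) :=
  ⟨g, hg, rfl, rfl⟩

theorem SameO.same {a b c d : Cusp} (h : SameO G a b c d) : SameArc G a b c d := by
  obtain ⟨g, hg, h1, h2⟩ := h
  exact ⟨g, hg, Or.inl ⟨h1, h2⟩⟩

theorem sameArc_iff {a b c d : Cusp} :
    SameArc G a b c d ↔ SameO G a b c d ∨ SameO G a b d c := by
  constructor
  · rintro ⟨g, hg, h | h⟩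
    · exact Or.inl ⟨g, hg, h.1, h.2⟩
    · exact Or.inr ⟨g, hg, h.1, h.2⟩
  · rintro (⟨g, hg, h1, h2⟩ | ⟨g, hg, h1, h2⟩)
    · exact ⟨g, hg, Or.inl ⟨h1, h2⟩⟩
    · exact ⟨g, hg, Or.inr ⟨h1, h2⟩⟩

/-- Translates of `ab` and `cd` do not cross. -/
def NX (G : Subgroup SLZ) (a b c d : Cusp) : Prop := ∀ g ∈ G, ¬ Cross a b (g • c) (g • d)

theorem NX.symm {a b c d : Cusp} (h : NX G a b c d) : NX G c d a b := by
  intro g hg hc
  refine h g⁻¹ (G.inv_mem hg) ?_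
  rw [← cross_smul g, smul_inv_smul, smul_inv_smul]
  exact cross_swap.1 hc

theorem NX.smul_right {g : SLZ} (hg : g ∈ G) {a b c d : Cusp} (h : NX G a b c d) :
    NX G a b (g • c) (g • d) := by
  intro k hk hc
  rw [← mul_smul, ← mul_smul] at hc
  exact h _ (G.mul_mem hk hg) hc

theorem NX.rev_right {a b c d : Cusp} (h : NX G a b c d) : NX G a b d c :=
  fun g hg hc => h g hg (cross_comm_right.1 hc)

theorem NX.same_right {a b c d e f : Cusp} (h : NX G a b c d) (h' : SameArc G c d e f) :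
    NX G a b e f := by
  obtain ⟨g, hg, ⟨rfl, rfl⟩ | ⟨rfl, rfl⟩⟩ := h'
  · exact h.smul_right hg
  · exact (h.smul_right hg).rev_right

theorem NX.same_left {a b c d e f : Cusp} (h : NX G a b c d) (h' : SameArc G a b e f) :
    NX G e f c d := (h.symm.same_right h').symm

theorem NX.not_cross {a b c d : Cusp} (h : NX G a b c d) : ¬ Cross a b c d := by
  have := h 1 G.one_mem
  rwa [one_smul, one_smul] at this

theorem simple_iff {a b : Cusp} : Simple G a b ↔ a ≠ b ∧ NX G a b a b := Iff.rfl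

theorem compat_iff {τ υ : TArc} : Compat G τ υ ↔ NX G τ.a τ.b υ.a υ.b ∧
    ((SameO G τ.a τ.b υ.a υ.b ∧ (τ.s = υ.s ∨ τ.t = υ.t)) ∨
     (SameO G τ.a τ.b υ.b υ.a ∧ (τ.s = υ.t ∨ τ.t = υ.s)) ∨
     ((Orb G τ.a υ.a → τ.s = υ.s) ∧ (Orb G τ.a υ.b → τ.s = υ.t) ∧
      (Orb G τ.b υ.a → τ.t = υ.s) ∧ (Orb G τ.b υ.b → τ.t = υ.t))) := by
  unfold Compat NX SameO Orb
  simp only [forall_exists_index, and_imp]

theorem compat_symm {τ υ : TArc} (h : Compat G τ υ) : Compat G υ τ := by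
  rw [compat_iff] at *
  refine ⟨h.1.symm, ?_⟩
  rcases h.2 with ⟨h1, h2⟩ | ⟨h1, h2⟩ | ⟨h1, h2, h3, h4⟩
  · exact Or.inl ⟨h1.symm, h2.imp Eq.symm Eq.symm⟩
  · exact Or.inr (Or.inl ⟨h1.symm.rev, h2.symm.imp Eq.symm Eq.symm⟩)
  · exact Or.inr (Or.inr ⟨fun h => (h1 h.symm).symm, fun h => (h3 h.symm).symm,
      fun h => (h2 h.symm).symm, fun h => (h4 h.symm).symm⟩)

/-- Translate of a tagged arc. -/
def smA (g : SLZ) (τ : TArc) : TArc := ⟨g • τ.a, g • τ.b, τ.s, τ.t⟩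

/-- Reversed tagged arc. -/
def rvA (τ : TArc) : TArc := ⟨τ.b, τ.a, τ.t, τ.s⟩

theorem compat_sm {g : SLZ} (hg : g ∈ G) {τ υ : TArc} (h : Compat G τ υ) :
    Compat G τ (smA g υ) := by
  rw [compat_iff] at *
  refine ⟨h.1.smul_right hg, ?_⟩
  rcases h.2 with ⟨h1, h2⟩ | ⟨h1, h2⟩ | ⟨h1, h2, h3, h4⟩
  · exact Or.inl ⟨h1.trans (SameO.smul hg _ _), h2⟩
  · exact Or.inr (Or.inl ⟨h1.trans (SameO.smul hg _ _), h2⟩)
  · exact Or.inr (Or.inr ⟨fun h => h1 (h.trans (Orb.smul hg _).symm),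
      fun h => h2 (h.trans (Orb.smul hg _).symm), fun h => h3 (h.trans (Orb.smul hg _).symm),
      fun h => h4 (h.trans (Orb.smul hg _).symm)⟩)

theorem compat_rv {τ υ : TArc} (h : Compat G τ υ) : Compat G τ (rvA υ) := by
  rw [compat_iff] at *
  refine ⟨h.1.rev_right, ?_⟩
  rcases h.2 with ⟨h1, h2⟩ | ⟨h1, h2⟩ | ⟨h1, h2, h3, h4⟩
  · exact Or.inr (Or.inl ⟨h1, h2⟩)
  · exact Or.inl ⟨h1, h2⟩
  · exact Or.inr (Or.inr ⟨h2, h1, h4, h3⟩)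

theorem isTArc_sm {g : SLZ} (hg : g ∈ G) {τ : TArc} (h : IsTArc G τ) : IsTArc G (smA g τ) := by
  have hs : Simple G τ.a τ.b := ⟨h.ne, h.simple⟩
  have hs' := hs.of_same (SameArc.smul hg τ.a τ.b)
  have key : ∀ k ∈ G, k • g • τ.a = g • τ.b → (g⁻¹ * k * g) • τ.a = τ.b := by
    intro k _ hk
    rw [mul_smul, mul_smul, hk, inv_smul_smul]
  have hm : ∀ k ∈ G, g⁻¹ * k * g ∈ G := fun k hk => G.mul_mem (G.mul_mem (G.inv_mem hg) hk) hg
  refine ⟨hs'.1, hs'.2, ?_, ?_⟩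
  · intro k hk e c hc
    refine h.monogon _ (hm k hk) (key k hk e) (g⁻¹ • c) ?_
    rw [mul_smul, mul_smul, smul_inv_smul, hc]
  · intro k hk e
    exact h.tag _ (hm k hk) (key k hk e)

theorem isTArc_rv {τ : TArc} (h : IsTArc G τ) : IsTArc G (rvA τ) := by
  have hs : Simple G τ.a τ.b := ⟨h.ne, h.simple⟩
  have hs' := hs.of_same (SameArc.rev τ.a τ.b)
  have key : ∀ k : SLZ, k • τ.b = τ.a → k⁻¹ • τ.a = τ.b := by
    intro k hk
    rw [← hk, inv_smul_smul]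
  refine ⟨hs'.1, hs'.2, ?_, ?_⟩
  · intro k hk e c hc
    refine h.monogon _ (G.inv_mem hk) (key k e) c ?_
    rw [inv_smul_eq_iff, hc]
  · intro k hk e
    exact (h.tag _ (G.inv_mem hk) (key k e)).symm

section Tri

variable {Tt : Set TArc} (h : IsTTri G Tt)

include h

theorem tt_sm {g : SLZ} (hg : g ∈ G) {τ : TArc} (hτ : τ ∈ Tt) : smA g τ ∈ Tt :=
  h.maximal _ (isTArc_sm hg (h.arc τ hτ)) fun υ hυ =>
    compat_symm (compat_sm hg (h.compat υ hυ τ hτ))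

theorem tt_rv {τ : TArc} (hτ : τ ∈ Tt) : rvA τ ∈ Tt :=
  h.maximal _ (isTArc_rv (h.arc τ hτ)) fun υ hυ => compat_symm (compat_rv (h.compat υ hυ τ hτ))

end Tri

/-- There is an end at `p` with tag `b`. -/
def Tg (Tt : Set TArc) (p : Cusp) (b : Bool) : Prop := ∃ τ ∈ Tt, τ.a = p ∧ τ.s = b

/-- There are ends with both tags at `p`. -/
def Two (Tt : Set TArc) (p : Cusp) : Prop := Tg Tt p false ∧ Tg Tt p true

section Tri

variable {Tt : Set TArc} (h : IsTTri G Tt)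

include h

theorem tg_smul {g : SLZ} (hg : g ∈ G) {p : Cusp} {b : Bool} (hp : Tg Tt p b) :
    Tg Tt (g • p) b := by
  obtain ⟨τ, hτ, rfl, rfl⟩ := hp
  exact ⟨smA g τ, tt_sm h hg hτ, rfl, rfl⟩

theorem tg_orb {p q : Cusp} (hpq : Orb G p q) {b : Bool} (hp : Tg Tt p b) : Tg Tt q b := by
  obtain ⟨g, hg, rfl⟩ := hpq
  exact tg_smul h hg hp

theorem two_orb {p q : Cusp} (hpq : Orb G p q) (hp : Two Tt p) : Two Tt q :=
  ⟨tg_orb h hpq hp.1, tg_orb h hpq hp.2⟩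

/-- Two arcs with different tags at `p`. -/
theorem diff_tags {τ υ : TArc} (hτ : τ ∈ Tt) (hυ : υ ∈ Tt) (hp : τ.a = υ.a) (hs : τ.s ≠ υ.s) :
    SameO G τ.a τ.b υ.a υ.b ∧ τ.t = υ.t := by
  have hc := compat_iff.1 (h.compat τ hτ υ hυ)
  rcases hc.2 with ⟨h1, h2⟩ | ⟨h1, h2⟩ | ⟨h1, -⟩
  · exact ⟨h1, h2.resolve_left hs⟩
  · exfalso
    obtain ⟨g, hg, h3, h4⟩ := h1
    have e1 : τ.s = τ.t := (h.arc τ hτ).tag g⁻¹ (G.inv_mem hg) (by
      rw [inv_smul_eq_iff, h4, hp])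
    have e2 : υ.s = υ.t := (h.arc υ hυ).tag g hg (by rw [← hp, h3])
    rcases h2 with h2 | h2
    · exact hs (h2.trans e2.symm)
    · exact hs (e1.trans h2)
  · exact absurd (h1 (hp ▸ Orb.refl _)) hs

/-- At a puncture with both tags there is only one arc; its other end is at another puncture. -/
theorem two_unique {p : Cusp} (hp : Two Tt p) {τ υ : TArc} (hτ : τ ∈ Tt) (hυ : υ ∈ Tt)
    (ha : τ.a = p) (hb : υ.a = p) : SameO G τ.a τ.b υ.a υ.b ∧ τ.t = υ.t := by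
  obtain ⟨⟨α, hα, hα1, hα2⟩, ⟨β, hβ, hβ1, hβ2⟩⟩ := hp
  by_cases hs : τ.s = υ.s
  · -- compare both with the one of the other tag
    obtain ⟨ζ, hζ, hζ1, hζ2⟩ : ∃ ζ ∈ Tt, ζ.a = p ∧ ζ.s ≠ τ.s := by
      cases hτs : τ.s
      · exact ⟨β, hβ, hβ1, by rw [hβ2]; simp⟩
      · exact ⟨α, hα, hα1, by rw [hα2]; simp⟩
    have h1 := diff_tags h hτ hζ (ha.trans hζ1.symm) (Ne.symm hζ2)
    have h2 := diff_tags h hζ hυ (hζ1.trans hb.symm) (by rw [← hs]; exact hζ2)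
    exact ⟨h1.1.trans h2.1, h1.2.trans h2.2⟩
  · exact diff_tags h hτ hυ (ha.trans hb.symm) hs

theorem two_ends {p : Cusp} (hp : Two Tt p) {τ : TArc} (hτ : τ ∈ Tt) (ha : τ.a = p) :
    ¬ Orb G p τ.b := by
  intro ho
  obtain ⟨ζ, hζ, hζ1, hζ2⟩ : ∃ ζ ∈ Tt, ζ.a = p ∧ ζ.s ≠ τ.s := by
    obtain ⟨⟨α, hα, hα1, hα2⟩, ⟨β, hβ, hβ1, hβ2⟩⟩ := hp
    cases hτs : τ.s
    · exact ⟨β, hβ, hβ1, by rw [hβ2]; simp⟩
    · exact ⟨α, hα, hα1, by rw [hα2]; simp⟩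
  have h1 := diff_tags h hτ hζ (ha.trans hζ1.symm) (Ne.symm hζ2)
  obtain ⟨g, hg, hg'⟩ := ho
  have e1 : τ.s = τ.t := (h.arc τ hτ).tag g hg (by rw [ha, hg'])
  obtain ⟨k, hk, hk1, hk2⟩ := h1.1
  have e2 : ζ.s = ζ.t := (h.arc ζ hζ).tag (k * g) (G.mul_mem hk hg) (by
    rw [hζ1, mul_smul, hg', hk2])
  exact hζ2 (e2.trans (h1.2.symm.trans e1.symm))

/-- The other end is at a puncture with one tag. -/
theorem two_other {p : Cusp} (hp : Two Tt p) {τ : TArc} (hτ : τ ∈ Tt) (ha : τ.a = p) :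
    ¬ Two Tt τ.b ∧ ∀ υ ∈ Tt, υ.a = τ.b → υ.s = τ.t := by
  have key : ∀ υ ∈ Tt, υ.a = τ.b → υ.s = τ.t := by
    intro υ hυ hυa
    by_contra hne
    have hcmp : ∀ ζ ∈ Tt, ζ.a = p → υ.t = ζ.s := by
      intro ζ hζ hζa
      have hu := two_unique h hp hτ hζ ha hζa
      have hc := compat_iff.1 (h.compat υ hυ ζ hζ)
      obtain ⟨k, hk, hk1, hk2⟩ := hu.1
      have hor : Orb G υ.a ζ.b := ⟨k, hk, by rw [hυa, hk2]⟩
      rcases hc.2 with ⟨h1, -⟩ | ⟨h1, h2⟩ | ⟨-, h2, -⟩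
      · exfalso
        obtain ⟨g, hg, h3, -⟩ := h1
        refine two_ends h hp hτ ha (Orb.symm ⟨g, hg, ?_⟩)
        rw [← hυa, h3, hζa]
      · rcases h2 with h2 | h2
        · exact absurd (h2.trans hu.2.symm) hne
        · exact h2
      · exact absurd ((h2 hor).trans hu.2.symm) hne
    obtain ⟨⟨α, hα, hα1, hα2⟩, ⟨β, hβ, hβ1, hβ2⟩⟩ := hp
    have e1 := hcmp α hα hα1
    have e2 := hcmp β hβ hβ1
    rw [hα2] at e1
    rw [hβ2] at e2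
    rw [e1] at e2
    exact absurd e2 (by simp)
  refine ⟨?_, key⟩
  rintro ⟨⟨α, hα, hα1, hα2⟩, ⟨β, hβ, hβ1, hβ2⟩⟩
  have e1 := key α hα hα1
  have e2 := key β hβ hβ1
  rw [hα2] at e1
  rw [hβ2, ← e1] at e2
  exact absurd e2 (by simp)

end Tri

end Pool.Agent.Lib.MP_eee7a8_ag.TB.C25
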