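import Pool.Agent.Lib.MP_eee7a8_ag.TB.C25.TtGeo
import Pool.Agent.Lib.MP_eee7a8_ag.TB.C25.Keydiv
import Pool.Agent.Lib.MP_eee7a8_ag.TB.A.H25.Mono1

/-!
# TAGBR, module TTRI
-/

namespace Pool.Agent.Lib.MP_eee7a8_ag.TB.C25

variable {G : Subgroup SLZ}

open Classical in
/-- The tags: `true` if there is no plain end. -/
noncomputable def epsT (Tt : Set TArc) (p : Cusp) : Bool := if Tg Tt p false then false else true

section Tri

variable {Tt : Set TArc} (h : IsTTri G Tt)

include h

theorem epsT_inv : TagInv G (epsT Tt) := by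
  intro g hg a
  unfold epsT
  have : Tg Tt (g • a) false ↔ Tg Tt a false := by
    constructor
    · intro h1
      exact tg_orb h (Orb.symm ⟨g, hg, rfl⟩) h1
    · intro h1
      exact tg_smul h hg h1
  by_cases h1 : Tg Tt a false
  · rw [if_pos h1, if_pos (this.2 h1)]
  · rw [if_neg h1, if_neg (fun h2 => h1 (this.1 h2))]

omit h in
/-- At a puncture without two tags all tags are `epsT`. -/
theorem tag_eq {p : Cusp} (hp : ¬ Two Tt p) {τ : TArc} (hτ : τ ∈ Tt) (ha : τ.a = p) :
    τ.s = epsT Tt p := by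
  unfold epsT
  split_ifs with h1
  · by_contra h2
    have : τ.s = true := by simpa using h2
    exact hp ⟨h1, τ, hτ, ha, this⟩
  · by_contra h2
    have : τ.s = false := by simpa using h2
    exact h1 ⟨τ, hτ, ha, this⟩

/-- The triangulation: geometry. -/
theorem geo (hSt : StabStatement) (hL : LencStatement) (hMo : MonogStatement)
    (hMF : MaxFlipStatement) (hMono : MonoStatement) (hFar : FareyStatement) (hG : IsSurface G) :
    ∃ (n : ℕ) (T : Fam (Fin n)), T.IsTri G ∧ ∀ x y, T.E G x y ↔ (UA Tt x y ∨ LA G Tt x y) := by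
  have hX : ∀ a b c d, (UA Tt a b ∨ LA G Tt a b) → (UA Tt c d ∨ LA G Tt c d) →
      NX G a b c d := by
    rintro a b c d (h1 | h1) (h2 | h2)
    · exact ua_nx h h1 h2
    · exact ua_la h hSt hL hG h1 h2
    · exact (ua_la h hSt hL hG h2 h1).symm
    · exact la_la h hSt hL hG h1 h2
  obtain ⟨m, Q, hQ, hQE⟩ := fam_of_rel hMF hFar hG (fun x y => UA Tt x y ∨ LA G Tt x y)
    (by
      rintro a b c d hs (h1 | ⟨p, w, h1, h2, h3⟩)
      · exact Or.inl (ua_same h hs h1)
      · exact Or.inr ⟨p, w, h1, h2, h3.trans hs⟩)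
    (by
      rintro a b (h1 | h1)
      · exact (ua_simple h h1).1
      · exact (la_simple h hSt hL hG h1).1)
    (fun a b c d h1 h2 => (hX a b c d h1 h2).not_cross)
  obtain ⟨n, T0, hT0, -⟩ := hFar G hG
  obtain ⟨T1, hT1, -, hsub1⟩ := hMF G hG (Fin n) (Fin m) T0 Q hT0 hQ
  obtain ⟨T, hT, -, hsub, hmon⟩ := hMono G hG (Fin n) (Fin m) T1 Q hT1 hsub1
  refine ⟨n, T, hT, fun x y => ⟨fun hxy => ?_, fun hxy => hsub _ _ ((hQE x y).2 hxy)⟩⟩
  by_contra hn
  have hsxy : Simple G x y := hT.toNonCross.simple hxy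
  -- no end at a puncture with two tags
  have hend : ∀ x y, T.E G x y → ¬ (UA Tt x y ∨ LA G Tt x y) → ¬ Two Tt x := by
    intro x y hxy hn hx
    obtain ⟨τ, hτ, ha, -⟩ := hx.1
    have hu : UA Tt x τ.b := ⟨τ, hτ, ha, rfl⟩
    obtain ⟨γ, hγ, hγp, -, hγ'⟩ := stab_gen hSt hG x
    have hw := gen_smul γ x _ hγ' τ.b
    have hl : LA G Tt τ.b (par x (width G x) • τ.b) := ⟨x, τ.b, hx, hu, SameArc.refl _ _⟩
    obtain ⟨-, -, -, h4⟩ := hMo G hG τ.b x γ hγ hγp (by
      rw [hw]; exact la_simple h hSt hL hG hl)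
    have h5 := (h4 x y (hT.toNonCross.simple hxy) (by
      intro k hk
      have hE : T.E G τ.b (γ • τ.b) := by
        rw [hw]; exact hsub _ _ ((hQE _ _).2 (Or.inr hl))
      exact hT.nocross _ _ _ _ hxy (hE.smul hk))).2.1 ⟨1, G.one_mem, one_smul _ _⟩
    exact hn (Or.inl (ua_same h h5 hu))
  have hx : ¬ Two Tt x := hend x y hxy hn
  have hy : ¬ Two Tt y := by
    refine hend y x hxy.symm ?_
    rintro (h1 | ⟨p, w, h1, h2, h3⟩)
    · exact hn (Or.inl (ua_same h (SameArc.rev _ _) h1))
    · exact hn (Or.inr ⟨p, w, h1, h2, h3.trans (SameArc.rev _ _)⟩)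
  have hinv := epsT_inv h
  have hτ : IsTArc G ⟨x, y, epsT Tt x, epsT Tt y⟩ := by
    refine ⟨hsxy.1, hsxy.2, ?_, ?_⟩
    · intro g hg e c hc
      apply hn
      apply (hQE x y).1
      have e' : g • x = y := e
      have := hmon g hg x c hc (by rw [e']; exact hxy)
      rwa [e'] at this
    · intro g hg e
      have e' : g • x = y := e
      show epsT Tt x = epsT Tt y
      rw [← e', hinv g hg]
  have key : ∀ (z : Cusp), ¬ Two Tt z → ∀ υ ∈ Tt, (Orb G z υ.a → epsT Tt z = υ.s) ∧
      (Orb G z υ.b → epsT Tt z = υ.t) := by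
    intro z hz υ hυ
    have hz' : ∀ w, Orb G z w → ¬ Two Tt w := fun w ho hw => hz (two_orb h ho.symm hw)
    constructor
    · rintro ho
      obtain ⟨g, hg, hgz⟩ := ho
      rw [← hinv g hg, hgz]
      exact (tag_eq (hz' _ ⟨g, hg, hgz⟩) hυ rfl).symm
    · rintro ho
      obtain ⟨g, hg, hgz⟩ := ho
      rw [← hinv g hg, hgz]
      exact (tag_eq (hz' _ ⟨g, hg, hgz⟩) (tt_rv h hυ) rfl).symm
  have hmem := h.maximal _ hτ (by
    intro υ hυ
    rw [compat_iff]
    refine ⟨?_, Or.inr (Or.inr ⟨(key x hx υ hυ).1, (key x hx υ hυ).2, (key y hy υ hυ).1,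
      (key y hy υ hυ).2⟩)⟩
    intro g hg
    have hE : T.E G υ.a υ.b := hsub _ _ ((hQE _ _).2 (Or.inl ⟨υ, hυ, rfl, rfl⟩))
    exact hT.nocross _ _ _ _ hxy (hE.smul hg))
  exact hn (Or.inl ⟨_, hmem, rfl, rfl⟩)

end Tri

section Mon

variable {K : Type} [Field K] [Algebra ℂ K]

/-- The Laurent monomials form a group. -/
def monSub (L : Lam G K) {ι : Type} [Fintype ι] (T : Fam ι) (hc : L.IsChart T) : Submonoid K where
  carrier := Set.range (L.mon T)
  mul_mem' := by
    rintro _ _ ⟨m, rfl⟩ ⟨n, rfl⟩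
    exact ⟨m + n, mon_add L T hc m n⟩
  one_mem' := ⟨0, by simp [Lam.mon]⟩

theorem mem_monSub {L : Lam G K} {ι : Type} [Fintype ι] {T : Fam ι} {hc : L.IsChart T} {x : K} :
    x ∈ monSub L T hc ↔ x ∈ Set.range (L.mon T) := Iff.rfl

theorem inv_mem_monSub {L : Lam G K} {ι : Type} [Fintype ι] {T : Fam ι} {hc : L.IsChart T} {x : K}
    (hx : x ∈ monSub L T hc) : x⁻¹ ∈ monSub L T hc := by
  obtain ⟨m, rfl⟩ := hx
  refine ⟨-m, ?_⟩
  have h1 := mon_add L T hc (-m) m
  rw [neg_add_cancel] at h1
  have h2 : L.mon T 0 = 1 := by simp [Lam.mon]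
  rw [h2] at h1
  exact eq_inv_of_mul_eq_one_left h1.symm

theorem lam_mem_monSub {L : Lam G K} {ι : Type} [Fintype ι] {T : Fam ι} (hT : T.IsTri G)
    {hc : L.IsChart T} {a b : Cusp} (hab : T.E G a b) : L.lam a b ∈ monSub L T hc :=
  ⟨T.del G a b, mon_del L hT hab⟩

end Mon

theorem ttri (hSt : StabStatement) (hL : LencStatement) (hMo : MonogStatement)
    (hMF : MaxFlipStatement) (hMono : MonoStatement) (hFar : FareyStatement)
    (hCh : ChartStatement) (hTF : TagfStatement) (hVg : VgenStatement) (hNz : NonzeroStatement) :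
    TtriStatement := by
  intro G hG Tt h
  obtain ⟨n, T, hT, hTE⟩ := geo h hSt hL hMo hMF hMono hFar hG
  refine ⟨epsT Tt, epsT_inv h, n, T, hT, ?_, ?_, ?_, ?_⟩
  · intro τ hτ
    exact (hTE _ _).2 (Or.inl ⟨τ, hτ, rfl, rfl⟩)
  · intro p hp τ hτ
    have hno : ¬ Tg Tt p false := by
      intro h1
      unfold epsT at hp
      rw [if_pos h1] at hp
      exact absurd hp (by simp)
    constructor
    · intro ha
      by_contra h2
      exact hno ⟨τ, hτ, ha, by simpa using h2⟩
    · intro hb
      by_contra h2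
      exact hno ⟨rvA τ, tt_rv h hτ, hb, by simpa [rvA] using h2⟩
  · intro p w t h1 h2 γ hγ hγp hgen
    rw [hTE]
    right
    refine ⟨p, w, ⟨⟨_, h1, rfl, rfl⟩, ⟨_, h2, rfl, rfl⟩⟩, ⟨_, h1, rfl, rfl⟩, ?_⟩
    obtain ⟨η, hη, hηp, hgen', hη'⟩ := stab_gen hSt hG p
    have hpw : p ≠ w := (h.arc _ h1).ne
    have hn : 0 < width G p := (hSt G hG p).1
    obtain ⟨t, tinj, tpar, -⟩ := coord p
    obtain ⟨m, hm⟩ := hgen' γ hγ hγp
    obtain ⟨k, hk⟩ := hgen η hη hηp
    have hγx : ∀ x : Cusp, γ • x = par p (m * width G p) • x := by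
      intro x
      have e1 : ∀ x : Cusp, η ^ m • x = par p (m * width G p) • x := by
        intro x
        rcases hη' with e | e <;> rw [e]
        · rw [par_zpow]
        · rcases neg_zpow_or (par p (width G p)) m with e' | e' <;> rw [e', par_zpow]
          rw [neg_smul']
      rcases hm with e | e <;> rw [e]
      · exact e1 x
      · rw [neg_smul', e1 x]
    have hγt : ∀ x, x ≠ p → γ • x ≠ p ∧ t (γ • x) = t x + ((m * width G p : ℤ) : ℚ) := by
      intro x hx
      rw [hγx]
      exact tpar _ x hx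
    have h5 := AMono.zpow_coord hγt k hpw.symm
    have h6 : γ ^ k • w = η • w := by
      rcases hk with e | e <;> rw [e]
      rw [neg_smul']
    have h7 : η • w = par p (width G p) • w := gen_smul η p _ hη' w
    have h8 := h5.2
    rw [h6, h7, (tpar _ w hpw.symm).2] at h8
    have h9 : (width G p : ℤ) = k * (m * width G p) := by
      have : ((width G p : ℤ) : ℚ) = k * ((m * width G p : ℤ) : ℚ) := by linarith
      exact_mod_cast this
    have h10 : k * m = 1 := by
      have hn' : (width G p : ℤ) ≠ 0 := by exact_mod_cast hn.ne'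
      have : (k * m) * (width G p : ℤ) = 1 * (width G p : ℤ) := by rw [one_mul]; linarith
      exact mul_right_cancel₀ hn' this
    rcases Int.isUnit_iff.1 (IsUnit.of_mul_eq_one_right k h10) with h11 | h11
    · rw [hγx, h11, one_mul]
      exact SameArc.refl _ _
    · rw [hγx, h11]
      refine ⟨η⁻¹, G.inv_mem hη, Or.inr ⟨?_, ?_⟩⟩
      · rw [inv_smul_eq_iff, gen_smul η p _ hη', ← mul_smul, par_mul]
        have : (width G p : ℤ) + -1 * width G p = 0 := by ring
        rw [this, par_zero, one_smul]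
      · rw [inv_smul_eq_iff, gen_smul η p _ hη']
  · intro K _ _ L L' hTw
    have hinv := epsT_inv h
    obtain ⟨-, -, -, harc, -⟩ := hTF G K L L' hG (epsT Tt) hinv hTw
    have hc := hCh G K L' hG (Fin n) T hT
    have harc' : ∀ τ : TArc, L.arc τ = L'.arc (tw (epsT Tt) τ) := by
      intro τ
      rw [harc]
      congr 1
      unfold tw
      simp
    apply Set.eq_of_subset_of_subset
    · have : Submonoid.closure {z | ∃ τ ∈ Tt, z = L.arc τ ∨ z = (L.arc τ)⁻¹} ≤ monSub L' T hc := by
        rw [Submonoid.closure_le]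
        have key : ∀ τ ∈ Tt, L.arc τ ∈ monSub L' T hc := by
          intro τ hτ
          -- both tags
          have hlam : L'.lam τ.a τ.b ∈ monSub L' T hc :=
            lam_mem_monSub hT ((hTE _ _).2 (Or.inl ⟨τ, hτ, rfl, rfl⟩))
          -- notch at a puncture with two tags
          have hnotch : ∀ τ ∈ Tt, Two Tt τ.a → L'.v τ.a * L'.lam τ.a τ.b ∈ monSub L' T hc := by
            intro τ hτ hp
            have hl : LA G Tt τ.b (par τ.a (width G τ.a) • τ.b) :=
              ⟨τ.a, τ.b, hp, ⟨τ, hτ, rfl, rfl⟩, SameArc.refl _ _⟩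
            have h1 : L'.lam τ.b (par τ.a (width G τ.a) • τ.b) ∈ monSub L' T hc :=
              lam_mem_monSub hT ((hTE _ _).2 (Or.inr hl))
            have h2 : L'.lam τ.a τ.b ∈ monSub L' T hc :=
              lam_mem_monSub hT ((hTE _ _).2 (Or.inl ⟨τ, hτ, rfl, rfl⟩))
            have h3 := hVg G K L' hG τ.a τ.b 1
            rw [one_mul] at h3
            simp only [abs_one, Int.cast_one, one_mul] at h3
            have h4 : L'.lam τ.a τ.b ≠ 0 := hNz G K L' hG _ _ (h.arc τ hτ).ne
            have h5 : L'.v τ.a * L'.lam τ.a τ.b =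
                L'.lam τ.b (par τ.a (width G τ.a) • τ.b) * (L'.lam τ.a τ.b)⁻¹ := by
              rw [h3]; field_simp
            rw [h5]
            exact (monSub L' T hc).mul_mem h1 (inv_mem_monSub h2)
          rw [harc']
          unfold Lam.arc tw
          simp only
          by_cases ha : Two Tt τ.a
          · have hb := (two_other h ha hτ rfl).1
            have e1 : τ.t = epsT Tt τ.b := tag_eq hb (tt_rv h hτ) rfl
            have e2 : epsT Tt τ.a = false := by unfold epsT; rw [if_pos ha.1]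
            rw [e1, e2]
            simp only [bne_self_eq_false, Bool.xor_false, Bool.xor_self, Bool.false_eq_true,
              if_false, mul_one]
            split_ifs
            · exact hnotch τ hτ ha
            · rw [one_mul]; exact hlam
          · have e1 : τ.s = epsT Tt τ.a := tag_eq ha hτ rfl
            rw [e1]
            simp only [Bool.xor_self, Bool.false_eq_true, if_false, one_mul]
            by_cases hb : Two Tt τ.b
            · have e2 : epsT Tt τ.b = false := by unfold epsT; rw [if_pos hb.1]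
              rw [e2]
              simp only [Bool.xor_false]
              split_ifs
              · have := hnotch (rvA τ) (tt_rv h hτ) hb
                unfold rvA at this
                simp only at this
                rwa [L'.symm τ.b τ.a] at this
              · rw [one_mul]; exact hlam
            · have e2 : τ.t = epsT Tt τ.b := tag_eq hb (tt_rv h hτ) rfl
              rw [e2]
              simp only [Bool.xor_self, Bool.false_eq_true, if_false, one_mul]
              exact hlam
        rintro z ⟨τ, hτ, rfl | rfl⟩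
        · exact key τ hτ
        · exact inv_mem_monSub (key τ hτ)
      intro x hx
      exact this hx
    · -- conversely
      set M := Submonoid.closure {z | ∃ τ ∈ Tt, z = L.arc τ ∨ z = (L.arc τ)⁻¹} with hM
      have hclo : ∀ τ ∈ Tt, L.arc τ ∈ M ∧ (L.arc τ)⁻¹ ∈ M := by
        intro τ hτ
        exact ⟨Submonoid.subset_closure ⟨τ, hτ, Or.inl rfl⟩,
          Submonoid.subset_closure ⟨τ, hτ, Or.inr rfl⟩⟩
      -- values
      have hV2 : ∀ τ ∈ Tt, ¬ Two Tt τ.a → ¬ Two Tt τ.b → L.arc τ = L'.lam τ.a τ.b := by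
        intro τ hτ ha hb
        rw [harc']
        unfold Lam.arc tw
        rw [tag_eq ha hτ rfl, show τ.t = epsT Tt τ.b from tag_eq hb (tt_rv h hτ) rfl]
        simp
      have hV : ∀ τ ∈ Tt, Two Tt τ.a → L.arc τ =
          (if τ.s then L'.v τ.a else 1) * L'.lam τ.a τ.b := by
        intro τ hτ ha
        have hb := (two_other h ha hτ rfl).1
        have e2 : epsT Tt τ.a = false := by unfold epsT; rw [if_pos ha.1]
        rw [harc']
        unfold Lam.arc tw
        rw [show τ.t = epsT Tt τ.b from tag_eq hb (tt_rv h hτ) rfl, e2]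
        simp
      have hTwo : ∀ x y, Two Tt x → UA Tt x y → ∀ b : Bool, ∃ τ ∈ Tt,
          L.arc τ = (if b then L'.v x else 1) * L'.lam x y := by
        rintro x y hx ⟨τ, hτ, rfl, rfl⟩ b
        obtain ⟨υ, hυ, hυa, hυs⟩ : ∃ υ ∈ Tt, υ.a = τ.a ∧ υ.s = b := by
          cases b
          · exact hx.1
          · exact hx.2
        refine ⟨υ, hυ, ?_⟩
        have h1 := (two_unique h hx hυ hτ hυa rfl).1
        have h2 := lam_same L' h1.same
        rw [hV υ hυ (by rw [hυa]; exact hx), hυs, h2, hυa]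
      have hUA : ∀ x y, UA Tt x y → L'.lam x y ∈ M ∧ (L'.lam x y)⁻¹ ∈ M := by
        intro x y hxy
        by_cases hx : Two Tt x
        · obtain ⟨τ, hτ, e⟩ := hTwo x y hx hxy false
          simp only [Bool.false_eq_true, if_false, one_mul] at e
          rw [← e]
          exact hclo τ hτ
        · by_cases hy : Two Tt y
          · obtain ⟨τ, hτ, e⟩ := hTwo y x hy (ua_same h (SameArc.rev _ _) hxy) false
            simp only [Bool.false_eq_true, if_false, one_mul] at e
            rw [L'.symm x y, ← e]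
            exact hclo τ hτ
          · obtain ⟨τ, hτ, rfl, rfl⟩ := hxy
            rw [← hV2 τ hτ hx hy]
            exact hclo τ hτ
      have hE : ∀ x y, T.E G x y → L'.lam x y ∈ M ∧ (L'.lam x y)⁻¹ ∈ M := by
        intro x y hxy
        rcases (hTE x y).1 hxy with h1 | ⟨p, w, hp, hu, hs⟩
        · exact hUA x y h1
        · obtain ⟨τ, hτ, e⟩ := hTwo p w hp hu true
          obtain ⟨υ, hυ, e'⟩ := hTwo p w hp hu false
          simp only [Bool.false_eq_true, if_false, one_mul, if_true] at e e'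
          have h3 := hVg G K L' hG p w 1
          rw [one_mul] at h3
          simp only [abs_one, Int.cast_one, one_mul] at h3
          have h4 : L'.lam x y = L.arc τ * L.arc υ := by
            rw [← lam_same L' hs, h3, e, e']; ring
          rw [h4, mul_inv]
          exact ⟨M.mul_mem (hclo τ hτ).1 (hclo υ hυ).1, M.mul_mem (hclo τ hτ).2 (hclo υ hυ).2⟩
      rintro _ ⟨m, rfl⟩
      show L'.mon T m ∈ M
      unfold Lam.mon
      apply Submonoid.prod_mem
      intro i _
      obtain ⟨h1, h2⟩ := hE _ _ (T.E_self (G := G) i)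
      rcases Int.eq_nat_or_neg (m i) with ⟨k, hk | hk⟩
      · rw [hk, zpow_natCast]
        exact M.pow_mem h1 k
      · rw [hk, zpow_neg, zpow_natCast, ← inv_pow]
        exact M.pow_mem h2 k

end Pool.Agent.Lib.MP_eee7a8_ag.TB.C25
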